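import Mathlib

/-!
# MP_74f563_an, n = 2 autonomous (D2), file DF/Label: the label of an orbit in a band
(Mathlib only)

`Flw`: a smooth flow `Fl` on `P` which commutes with the translations by `g1`, `g2`, with the
first integral `e`; `pp` is the position map in the basis `g1, g2`.
`Bnd`: a band: `Z (a, θ, t)`, `|a|, |t| < 1/4`, is a point of energy `E1 + c2 a`, `Z (a, θ + 1, t) = Z + g2`,
and the flow returns after the time `T` to `Z (a, θ + r (1 + t), t) + g1`.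
`label_eq`: `a` and `t` depend only on the orbit (modulo the lattice).
-/

set_option autoImplicit false

namespace Pool.Agent.DF

open Set Filter Topology
open scoped ContDiff

/-- the domain of the parameters `(a, θ, t)` -/
def Dom : Set (ℝ × ℝ × ℝ) := {w | |w.1| < 1 / 4 ∧ |w.2.2| < 1 / 4}

variable {P : Type} [NormedAddCommGroup P] [NormedSpace ℝ P]

/-- A smooth flow with a first integral, commuting with two translations. -/
structure Flw (Fl : ℝ → P → P) (e : P → ℝ) (pp : P →L[ℝ] ℝ × ℝ) (g1 g2 : P) : Prop where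
  smooth : ContDiff ℝ ∞ (fun q : ℝ × P => Fl q.1 q.2)
  zero : ∀ z, Fl 0 z = z
  add : ∀ s t z, Fl (s + t) z = Fl s (Fl t z)
  tr1 : ∀ s z, Fl s (z + g1) = Fl s z + g1
  tr2 : ∀ s z, Fl s (z + g2) = Fl s z + g2
  en : ∀ s z, e (Fl s z) = e z
  es : ContDiff ℝ ∞ e
  e1 : ∀ z, e (z + g1) = e z
  e2 : ∀ z, e (z + g2) = e z
  p1 : pp g1 = (1, 0)
  p2 : pp g2 = (0, 1)

/-- A band. -/
structure Bnd (Fl : ℝ → P → P) (e : P → ℝ) (g1 g2 : P) (E1 c2 r : ℝ) (Z : ℝ × ℝ × ℝ → P)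
    (T : ℝ × ℝ × ℝ → ℝ) : Prop where
  r0 : 0 < r
  c0 : 0 < c2
  smooth : ContDiffOn ℝ ∞ Z Dom
  tc : ContinuousOn T Dom
  tp : ∀ w ∈ Dom, 0 < T w
  en : ∀ w ∈ Dom, e (Z w) = E1 + c2 * w.1
  per : ∀ a θ t, (a, θ, t) ∈ Dom → Z (a, θ + 1, t) = Z (a, θ, t) + g2
  tper : ∀ a θ t, (a, θ, t) ∈ Dom → T (a, θ + 1, t) = T (a, θ, t)
  ret : ∀ a θ t, (a, θ, t) ∈ Dom → Fl (T (a, θ, t)) (Z (a, θ, t)) = Z (a, θ + r * (1 + t), t) + g1
  jac : ∀ w ∈ Dom, Function.Bijective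
    (fderiv ℝ (fun q : ℝ × ℝ × ℝ × ℝ => Fl q.1 (Z q.2)) (0, w))

variable {Fl : ℝ → P → P} {e : P → ℝ} {pp : P →L[ℝ] ℝ × ℝ} {g1 g2 : P} {E1 c2 r : ℝ}
  {Z : ℝ × ℝ × ℝ → P} {T : ℝ × ℝ × ℝ → ℝ}

theorem isOpen_dom : IsOpen Dom := by
  have h1 : Continuous fun w : ℝ × ℝ × ℝ => |w.1| := by fun_prop
  have h2 : Continuous fun w : ℝ × ℝ × ℝ => |w.2.2| := by fun_prop
  exact (isOpen_Iio.preimage h1).inter (isOpen_Iio.preimage h2)

/-- the lattice vectors -/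
def lat (g1 g2 : P) (a b : ℤ) : P := (a : ℝ) • g1 + (b : ℝ) • g2

theorem lat_zero : lat g1 g2 0 0 = 0 := by simp [lat]

theorem lat_add (a b c d : ℤ) : lat g1 g2 a b + lat g1 g2 c d = lat g1 g2 (a + c) (b + d) := by
  simp only [lat, Int.cast_add, add_smul]
  abel

theorem lat_neg (a b : ℤ) : -lat g1 g2 a b = lat g1 g2 (-a) (-b) := by
  simp only [lat, Int.cast_neg, neg_smul, neg_add]

theorem lat_one : lat g1 g2 1 0 = g1 := by simp [lat]

theorem lat_two : lat g1 g2 0 1 = g2 := by simp [lat]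

theorem Flw.lat (h : Flw Fl e pp g1 g2) (s : ℝ) (z : P) (a b : ℤ) :
    Fl s (z + lat g1 g2 a b) = Fl s z + DF.lat g1 g2 a b := by
  have key : ∀ (g : P), (∀ z, Fl s (z + g) = Fl s z + g) → ∀ (n : ℤ) (z : P),
      Fl s (z + (n : ℝ) • g) = Fl s z + (n : ℝ) • g := by
    intro g hg n z
    obtain ⟨m, rfl | rfl⟩ := n.eq_nat_or_neg
    · have h1 : ∀ (m : ℕ) (z : P), Fl s (z + (m : ℝ) • g) = Fl s z + (m : ℝ) • g := by
        intro m
        induction m with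
        | zero => intro z; simp
        | succ m ih =>
          intro z
          have e1 : ((m + 1 : ℕ) : ℝ) • g = (m : ℝ) • g + g := by
            push_cast
            rw [add_smul, one_smul]
          rw [e1, ← add_assoc, hg, ih, add_assoc]
      simpa using h1 m z
    · have h1 : ∀ (m : ℕ) (z : P), Fl s (z + (m : ℝ) • g) = Fl s z + (m : ℝ) • g := by
        intro m
        induction m with
        | zero => intro z; simp
        | succ m ih =>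
          intro z
          have e1 : ((m + 1 : ℕ) : ℝ) • g = (m : ℝ) • g + g := by
            push_cast
            rw [add_smul, one_smul]
          rw [e1, ← add_assoc, hg, ih, add_assoc]
      have h2 := h1 m (z - (m : ℝ) • g)
      rw [sub_add_cancel] at h2
      have h3 : ((-(m : ℤ) : ℤ) : ℝ) • g = -((m : ℝ) • g) := by
        push_cast
        rw [neg_smul]
      rw [h3, ← sub_eq_add_neg, ← sub_eq_add_neg, h2, add_sub_cancel_right]
  unfold DF.lat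
  rw [← add_assoc, key g2 (h.tr2 s), key g1 (h.tr1 s), add_assoc]

theorem Flw.elat (h : Flw Fl e pp g1 g2) (z : P) (a b : ℤ) : e (z + DF.lat g1 g2 a b) = e z := by
  have key : ∀ (g : P), (∀ z, e (z + g) = e z) → ∀ (n : ℤ) (z : P), e (z + (n : ℝ) • g) = e z := by
    intro g hg n z
    have h1 : ∀ (m : ℕ) (z : P), e (z + (m : ℝ) • g) = e z := by
      intro m
      induction m with
      | zero => intro z; simp
      | succ m ih =>
        intro z
        have e1 : ((m + 1 : ℕ) : ℝ) • g = (m : ℝ) • g + g := by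
          push_cast
          rw [add_smul, one_smul]
        rw [e1, ← add_assoc, hg, ih]
    obtain ⟨m, rfl | rfl⟩ := n.eq_nat_or_neg
    · simpa using h1 m z
    · have h2 := h1 m (z - (m : ℝ) • g)
      rw [sub_add_cancel] at h2
      have h3 : ((-(m : ℤ) : ℤ) : ℝ) • g = -((m : ℝ) • g) := by
        push_cast
        rw [neg_smul]
      rw [h3, ← sub_eq_add_neg, h2]
  unfold DF.lat
  rw [← add_assoc, key g2 h.e2, key g1 h.e1]

theorem Flw.plat (h : Flw Fl e pp g1 g2) (a b : ℤ) : pp (DF.lat g1 g2 a b) = ((a : ℝ), (b : ℝ)) := by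
  unfold DF.lat
  rw [map_add, map_smul, map_smul, h.p1, h.p2]
  simp

theorem Flw.neg (h : Flw Fl e pp g1 g2) (s : ℝ) (z : P) : Fl (-s) (Fl s z) = z := by
  rw [← h.add, neg_add_cancel, h.zero]

/-- the sum of the return times -/
noncomputable def Ts (T : ℝ × ℝ × ℝ → ℝ) (r a θ t : ℝ) (n : ℕ) : ℝ :=
  ∑ j ∈ Finset.range n, T (a, θ + j * (r * (1 + t)), t)

theorem Bnd.orb (h : Flw Fl e pp g1 g2) (hB : Bnd Fl e g1 g2 E1 c2 r Z T) {a t : ℝ}
    (ha : |a| < 1 / 4) (ht : |t| < 1 / 4) (θ : ℝ) (n : ℕ) :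
    Fl (Ts T r a θ t n) (Z (a, θ, t)) =
      Z (a, θ + n * (r * (1 + t)), t) + DF.lat g1 g2 n 0 := by
  induction n with
  | zero => simp [Ts, h.zero, lat_zero]
  | succ n ih =>
    have hd : (a, θ + n * (r * (1 + t)), t) ∈ Dom := ⟨ha, ht⟩
    have e1 : Ts T r a θ t (n + 1) = T (a, θ + n * (r * (1 + t)), t) + Ts T r a θ t n := by
      rw [Ts, Finset.sum_range_succ, add_comm]
      rfl
    rw [e1, h.add, ih, h.lat, hB.ret _ _ _ hd]
    have e2 : θ + (n : ℝ) * (r * (1 + t)) + r * (1 + t) = θ + ((n + 1 : ℕ) : ℝ) * (r * (1 + t)) := by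
      push_cast
      ring
    rw [e2, add_assoc]
    congr 1
    have e3 : g1 + DF.lat g1 g2 (n : ℤ) 0 = DF.lat g1 g2 1 0 + DF.lat g1 g2 (n : ℤ) 0 := by
      rw [lat_one]
    rw [e3, lat_add]
    congr 1
    push_cast
    ring

/-- Bounds on a compact part of the band. -/
theorem Bnd.bdd (hB : Bnd Fl e g1 g2 E1 c2 r Z T) {κ : ℝ}
    (hκ : κ < 1 / 4) :
    ∃ τ M : ℝ, 0 < τ ∧ ∀ a θ t, |a| ≤ κ → |t| ≤ κ → τ ≤ T (a, θ, t) ∧ T (a, θ, t) ≤ M := by
  have hK : IsCompact (Icc (-κ) κ ×ˢ Icc (0 : ℝ) 1 ×ˢ Icc (-κ) κ) :=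
    isCompact_Icc.prod (isCompact_Icc.prod isCompact_Icc)
  have hsub : Icc (-κ) κ ×ˢ Icc (0 : ℝ) 1 ×ˢ Icc (-κ) κ ⊆ Dom := by
    rintro ⟨a, θ, t⟩ ⟨ha, -, ht⟩
    exact ⟨lt_of_le_of_lt (abs_le.2 ha) hκ, lt_of_le_of_lt (abs_le.2 ht) hκ⟩
  have hper : ∀ a t, |a| < 1 / 4 → |t| < 1 / 4 → ∀ θ, T (a, θ, t) = T (a, Int.fract θ, t) := by
    intro a t ha ht θ
    have h1 : Function.Periodic (fun θ => T (a, θ, t)) 1 := fun θ => hB.tper a θ t ⟨ha, ht⟩
    have h2 := h1.sub_int_mul_eq ⌊θ⌋ (x := θ)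
    simp only [mul_one] at h2
    exact h2.symm
  rcases (Icc (-κ) κ ×ˢ Icc (0 : ℝ) 1 ×ˢ Icc (-κ) κ).eq_empty_or_nonempty with he | hne
  · refine ⟨1, 1, one_pos, fun a θ t ha ht => ?_⟩
    exfalso
    have h0 : (a, (0 : ℝ), t) ∈ Icc (-κ) κ ×ˢ Icc (0 : ℝ) 1 ×ˢ Icc (-κ) κ :=
      ⟨abs_le.1 ha, ⟨le_rfl, zero_le_one⟩, abs_le.1 ht⟩
    rw [he] at h0
    exact h0
  · obtain ⟨w0, hw0, hmin⟩ := hK.exists_isMinOn hne (hB.tc.mono hsub)
    obtain ⟨w1, hw1, hmax⟩ := hK.exists_isMaxOn hne (hB.tc.mono hsub)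
    refine ⟨T w0, T w1, hB.tp w0 (hsub hw0), fun a θ t ha ht => ?_⟩
    have hm : (a, Int.fract θ, t) ∈ Icc (-κ) κ ×ˢ Icc (0 : ℝ) 1 ×ˢ Icc (-κ) κ :=
      ⟨abs_le.1 ha, ⟨Int.fract_nonneg θ, (Int.fract_lt_one θ).le⟩, abs_le.1 ht⟩
    rw [hper a t (by linarith) (by linarith) θ]
    exact ⟨hmin hm, hmax hm⟩

/-- Reduction of `θ` modulo `1`. -/
theorem Bnd.fract (hB : Bnd Fl e g1 g2 E1 c2 r Z T) {a t : ℝ} (ha : |a| < 1 / 4)
    (ht : |t| < 1 / 4) (θ : ℝ) :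
    Z (a, θ, t) = Z (a, Int.fract θ, t) + DF.lat g1 g2 0 ⌊θ⌋ := by
  have h1 : Function.Periodic (fun θ => Z (a, θ, t) - θ • g2) 1 := fun θ => by
    change Z (a, θ + 1, t) - (θ + 1) • g2 = Z (a, θ, t) - θ • g2
    rw [hB.per a θ t ⟨ha, ht⟩, add_smul, one_smul]
    abel
  have h2 := h1.sub_int_mul_eq ⌊θ⌋ (x := θ)
  simp only [mul_one] at h2
  have h3 : Z (a, Int.fract θ, t) - (Int.fract θ) • g2 = Z (a, θ, t) - θ • g2 := h2
  have h4 : Z (a, θ, t) = Z (a, Int.fract θ, t) + (θ • g2 - Int.fract θ • g2) := by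
    rw [sub_eq_iff_eq_add] at h3
    rw [h3]
    abel
  rw [h4, ← sub_smul]
  unfold DF.lat
  rw [Int.cast_zero, zero_smul, zero_add]
  congr 2
  have := Int.self_sub_fract θ
  linarith

/-- The positions of the points of the band, moved by the flow for a bounded time. -/
theorem Bnd.pos (h : Flw Fl e pp g1 g2) (hB : Bnd Fl e g1 g2 E1 c2 r Z T) {a t : ℝ}
    (ha : |a| < 1 / 4) (ht : |t| < 1 / 4) (M : ℝ) :
    ∃ C : ℝ, ∀ s θ, 0 ≤ s → s ≤ M →
      |(pp (Fl s (Z (a, θ, t)))).1| ≤ C ∧ |(pp (Fl s (Z (a, θ, t)))).2 - θ| ≤ C := by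
  have hK : IsCompact (Icc (0 : ℝ) M ×ˢ Icc (0 : ℝ) 1) := isCompact_Icc.prod isCompact_Icc
  have hc : ContinuousOn (fun q : ℝ × ℝ => pp (Fl q.1 (Z (a, q.2, t))))
      (Icc (0 : ℝ) M ×ˢ Icc (0 : ℝ) 1) := by
    have h1 : ContinuousOn (fun q : ℝ × ℝ => Z (a, q.2, t)) (Icc (0 : ℝ) M ×ˢ Icc (0 : ℝ) 1) := by
      refine hB.smooth.continuousOn.comp (t := Dom) (by fun_prop) fun q _ => ?_
      exact ⟨ha, ht⟩
    exact (pp.continuous.comp h.smooth.continuous).comp_continuousOn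
      (continuousOn_fst.prodMk h1)
  obtain ⟨C, hC⟩ := hK.exists_bound_of_continuousOn hc
  refine ⟨C + 1, fun s θ hs0 hs => ?_⟩
  have hz := hB.fract ha ht θ
  have hm : (s, Int.fract θ) ∈ Icc (0 : ℝ) M ×ˢ Icc (0 : ℝ) 1 :=
    ⟨⟨hs0, hs⟩, Int.fract_nonneg θ, (Int.fract_lt_one θ).le⟩
  have h5 := hC _ hm
  have h6 : |(pp (Fl s (Z (a, Int.fract θ, t)))).1| ≤ C :=
    (norm_fst_le (pp (Fl s (Z (a, Int.fract θ, t))))).trans h5
  have h7 : |(pp (Fl s (Z (a, Int.fract θ, t)))).2| ≤ C :=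
    (norm_snd_le (pp (Fl s (Z (a, Int.fract θ, t))))).trans h5
  rw [hz, h.lat, map_add, h.plat]
  refine ⟨?_, ?_⟩
  · simp only [Prod.fst_add, Int.cast_zero, add_zero]
    linarith
  · simp only [Prod.snd_add]
    have h8 := Int.fract_add_floor θ
    have h9 : (pp (Fl s (Z (a, Int.fract θ, t)))).2 + (⌊θ⌋ : ℝ) - θ =
        (pp (Fl s (Z (a, Int.fract θ, t)))).2 - Int.fract θ := by linarith
    rw [h9, abs_le]
    rw [abs_le] at h7
    have h10 := Int.fract_nonneg θ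
    have h11 := (Int.fract_lt_one θ).le
    constructor <;> linarith [h7.1, h7.2]

theorem Bnd.ts_ge (hB : Bnd Fl e g1 g2 E1 c2 r Z T) {a t : ℝ} (ha : |a| < 1 / 4)
    (ht : |t| < 1 / 4) : ∃ τ M : ℝ, 0 < τ ∧ (∀ θ, T (a, θ, t) ≤ M) ∧
      (∀ (θ : ℝ) (n : ℕ), (n : ℝ) * τ ≤ Ts T r a θ t n) ∧
      ∀ (θ : ℝ) (n : ℕ), Ts T r a θ t (n + 1) ≤ Ts T r a θ t n + M := by
  obtain ⟨τ, M, hτ, hb⟩ := hB.bdd (κ := max |a| |t|) (max_lt ha ht)
  have hb' : ∀ θ, τ ≤ T (a, θ, t) ∧ T (a, θ, t) ≤ M := fun θ =>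
    hb a θ t (le_max_left _ _) (le_max_right _ _)
  refine ⟨τ, M, hτ, fun θ => (hb' θ).2, fun θ n => ?_, fun θ n => ?_⟩
  · have h1 := Finset.card_nsmul_le_sum (Finset.range n)
      (fun j : ℕ => T (a, θ + j * (r * (1 + t)), t)) τ fun j _ => (hb' _).1
    rw [Finset.card_range, nsmul_eq_mul] at h1
    exact h1
  · rw [Ts, Finset.sum_range_succ]
    exact add_le_add le_rfl (hb' _).2

/-- **The label of an orbit**: `a` and `t` depend only on the orbit. -/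
theorem Bnd.label_eq (h : Flw Fl e pp g1 g2) (hB : Bnd Fl e g1 g2 E1 c2 r Z T)
    {w w' : ℝ × ℝ × ℝ} (hw : w ∈ Dom) (hw' : w' ∈ Dom) {s s' : ℝ} {i j : ℤ}
    (heq : Fl s (Z w) = Fl s' (Z w') + DF.lat g1 g2 i j) : w.1 = w'.1 ∧ w.2.2 = w'.2.2 := by
  obtain ⟨a, θ, t⟩ := w
  obtain ⟨a', θ', t'⟩ := w'
  have hA : a = a' := by
    have h1 := congrArg e heq
    rw [h.elat, h.en, h.en, hB.en _ hw, hB.en _ hw'] at h1
    have h2 : c2 * a = c2 * a' := by simpa using h1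
    exact mul_left_cancel₀ hB.c0.ne' h2
  refine ⟨hA, ?_⟩
  obtain ⟨τ, M, hτ, hM, hge, hle⟩ := hB.ts_ge (a := a) (t := t) hw.1 hw.2
  obtain ⟨τ', M', hτ', hM', hge', hle'⟩ := hB.ts_ge (a := a') (t := t') hw'.1 hw'.2
  obtain ⟨C, hC⟩ := hB.pos h (a := a) (t := t) hw.1 hw.2 0
  obtain ⟨C', hC'⟩ := hB.pos h (a := a') (t := t') hw'.1 hw'.2 M'
  set ρ : ℝ := r * (1 + t) with hρ
  set ρ' : ℝ := r * (1 + t') with hρ'
  set σ : ℝ := s' - s with hσ
  have hz : Z (a, θ, t) = Fl σ (Z (a', θ', t')) + DF.lat g1 g2 i j := by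
    have h1 := congrArg (Fl (-s)) heq
    rw [h.neg, h.lat, ← h.add] at h1
    rw [h1, hσ]
    congr 2
    ring
  -- the estimate
  have key : ∀ n : ℕ, 0 ≤ (n : ℝ) * τ + σ →
      (n : ℝ) * |ρ - ρ'| ≤ (C + C' + |(i : ℝ)|) * |ρ'| + (C + C' + |θ| + |θ'| + |(j : ℝ)|) := by
    intro n hn
    set S : ℝ := Ts T r a θ t n + σ with hS
    have hS0 : 0 ≤ S := hn.trans (by
      have := hge θ n
      linarith)
    -- the index of the other orbit
    have hex : ∃ m : ℕ, S < Ts T r a' θ' t' (m + 1) := by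
      obtain ⟨m, hm⟩ := exists_nat_gt (S / τ')
      refine ⟨m, ?_⟩
      have h1 := hge' θ' (m + 1)
      rw [div_lt_iff₀ hτ'] at hm
      push_cast at h1
      nlinarith
    classical
    obtain ⟨m, hm1, hm2⟩ : ∃ m : ℕ, S < Ts T r a' θ' t' (m + 1) ∧ Ts T r a' θ' t' m ≤ S := by
      refine ⟨Nat.find hex, Nat.find_spec hex, ?_⟩
      rcases Nat.eq_zero_or_pos (Nat.find hex) with h0 | h0
      · rw [h0]
        simpa [Ts] using hS0
      · have h1 := Nat.find_min hex (m := Nat.find hex - 1) (by omega)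
        rw [Nat.sub_add_cancel h0] at h1
        exact not_lt.1 h1
    set q : ℝ := S - Ts T r a' θ' t' m with hq
    have hq0 : 0 ≤ q := by linarith
    have hqM : q ≤ M' := by
      have := hle' θ' m
      linarith
    have h1 := hB.orb h (a := a) (t := t) hw.1 hw.2 θ n
    have h2 : Fl (Ts T r a θ t n) (Z (a, θ, t)) =
        Fl q (Z (a', θ' + m * ρ', t')) + DF.lat g1 g2 ((m : ℤ) + i) j := by
      rw [hz, h.lat, ← h.add]
      have e1 : Ts T r a θ t n + σ = q + Ts T r a' θ' t' m := by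
        rw [hq, hS]
        ring
      rw [e1, h.add, hB.orb h (a := a') (t := t') hw'.1 hw'.2 θ' m, h.lat, add_assoc, lat_add,
        zero_add]
    rw [h1] at h2
    have h3 := congrArg pp h2
    rw [map_add, map_add, h.plat, h.plat] at h3
    have f1 := congrArg Prod.fst h3
    have f2 := congrArg Prod.snd h3
    simp only [Prod.fst_add, Prod.snd_add, Int.cast_add, Int.cast_natCast, Int.cast_zero,
      add_zero] at f1 f2
    have b1 := hC 0 (θ + n * ρ) le_rfl le_rfl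
    rw [h.zero] at b1
    have b2 := hC' q (θ' + m * ρ') hq0 hqM
    have c1 : |(n : ℝ) - m| ≤ C + C' + |(i : ℝ)| := by
      have e1 : (n : ℝ) - m = (pp (Fl q (Z (a', θ' + m * ρ', t')))).1 -
          (pp (Z (a, θ + n * ρ, t))).1 + i := by linarith
      rw [e1]
      refine (abs_add_le _ _).trans (add_le_add ?_ le_rfl)
      refine (abs_sub _ _).trans ?_
      linarith [b1.1, b2.1]
    have c2' : |(n : ℝ) * ρ - m * ρ'| ≤ C + C' + |θ| + |θ'| + |(j : ℝ)| := by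
      have e1 : (n : ℝ) * ρ - m * ρ' = -((pp (Z (a, θ + n * ρ, t))).2 - (θ + n * ρ)) +
          ((pp (Fl q (Z (a', θ' + m * ρ', t')))).2 - (θ' + m * ρ')) + (-θ) + θ' + j := by
        linarith
      rw [e1]
      refine (abs_add_le _ _).trans (add_le_add ?_ le_rfl)
      refine (abs_add_le _ _).trans (add_le_add ?_ le_rfl)
      refine (abs_add_le _ _).trans (add_le_add ?_ (abs_neg θ).le)
      refine (abs_add_le _ _).trans (add_le_add ?_ b2.2)
      rw [abs_neg]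
      exact b1.2
    have e2 : (n : ℝ) * |ρ - ρ'| = |(n : ℝ) * ρ - m * ρ' - ((n : ℝ) - m) * ρ'| := by
      rw [← abs_of_nonneg (Nat.cast_nonneg n : (0 : ℝ) ≤ (n : ℝ)), ← abs_mul]
      rw [abs_of_nonneg (Nat.cast_nonneg n : (0 : ℝ) ≤ (n : ℝ))]
      congr 1
      ring
    rw [e2]
    refine (abs_sub _ _).trans ?_
    rw [abs_mul]
    have := mul_le_mul_of_nonneg_right c1 (abs_nonneg ρ')
    linarith
  by_contra hne
  have hρne : 0 < |ρ - ρ'| := by
    rw [abs_pos]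
    intro h0
    apply hne
    have h1 : r * (t - t') = 0 := by
      rw [hρ, hρ'] at h0
      linarith
    rcases mul_eq_zero.1 h1 with h2 | h2
    · exact absurd h2 hB.r0.ne'
    · change t = t'
      linarith
  obtain ⟨n, hn⟩ := exists_nat_gt (max (-σ / τ)
    (((C + C' + |(i : ℝ)|) * |ρ'| + (C + C' + |θ| + |θ'| + |(j : ℝ)|)) / |ρ - ρ'|))
  have n1 := (le_max_left _ _).trans_lt hn
  have n2 := (le_max_right _ _).trans_lt hn
  rw [div_lt_iff₀ hτ] at n1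
  rw [div_lt_iff₀ hρne] at n2
  have := key n (by linarith)
  linarith

end Pool.Agent.DF
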