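import Pool.Agent.DF.Label

/-!
# MP_74f563_an, n = 2 autonomous (D2), file DF/BFun: the smooth first integral of a band

The orbits of the band fill an open set `Img`; there `lab z` is the parameter `t` of the orbit
(`label_eq`); it is smooth by the inverse function theorem.  Multiplied with cut-off functions in
`a = (e - E1) / c2` and `t` it is a smooth function on `P`, because the part of the image with
`|a|, |t| ≤ κ < 1/4` is closed (it is the preimage of a compact set of the quotient).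
-/

set_option autoImplicit false

namespace Pool.Agent.DF

open Set Filter Topology
open scoped ContDiff

variable {P : Type} [NormedAddCommGroup P] [NormedSpace ℝ P]
  {Fl : ℝ → P → P} {e : P → ℝ} {pp : P →L[ℝ] ℝ × ℝ} {g1 g2 : P} {E1 c2 r : ℝ}
  {Z : ℝ × ℝ × ℝ → P} {T : ℝ × ℝ × ℝ → ℝ}

/-- the union of the orbits of the band -/
def Img (Fl : ℝ → P → P) (g1 g2 : P) (Z : ℝ × ℝ × ℝ → P) : Set P :=
  {z | ∃ (s : ℝ) (w : ℝ × ℝ × ℝ) (i j : ℤ), w ∈ Dom ∧ z = Fl s (Z w) + lat g1 g2 i j}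

/-- the parameter `t` of the orbit -/
noncomputable def lab (Fl : ℝ → P → P) (g1 g2 : P) (Z : ℝ × ℝ × ℝ → P) (z : P) : ℝ :=
  Classical.epsilon fun t => ∃ (s : ℝ) (w : ℝ × ℝ × ℝ) (i j : ℤ), w ∈ Dom ∧
    z = Fl s (Z w) + lat g1 g2 i j ∧ t = w.2.2

theorem lab_eq (h : Flw Fl e pp g1 g2) (hB : Bnd Fl e g1 g2 E1 c2 r Z T) {w : ℝ × ℝ × ℝ}
    (hw : w ∈ Dom) (s : ℝ) (i j : ℤ) :
    lab Fl g1 g2 Z (Fl s (Z w) + lat g1 g2 i j) = w.2.2 := by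
  have h1 : ∃ t, ∃ (s' : ℝ) (w' : ℝ × ℝ × ℝ) (i' j' : ℤ), w' ∈ Dom ∧
      Fl s (Z w) + lat g1 g2 i j = Fl s' (Z w') + lat g1 g2 i' j' ∧ t = w'.2.2 :=
    ⟨w.2.2, s, w, i, j, hw, rfl, rfl⟩
  obtain ⟨s', w', i', j', hw', h2, h3⟩ := Classical.epsilon_spec h1
  have h4 : Fl s (Z w) = Fl s' (Z w') + lat g1 g2 (i' - i) (j' - j) := by
    have e1 : lat g1 g2 (i' - i) (j' - j) = lat g1 g2 i' j' + -lat g1 g2 i j := by
      rw [lat_neg, lat_add, sub_eq_add_neg, sub_eq_add_neg]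
    rw [e1, ← add_assoc, ← h2, add_neg_cancel_right]
  exact h3.trans (hB.label_eq h hw hw' h4).2.symm

/-- the energy label -/
theorem elab_eq (h : Flw Fl e pp g1 g2) (hB : Bnd Fl e g1 g2 E1 c2 r Z T) {w : ℝ × ℝ × ℝ}
    (hw : w ∈ Dom) (s : ℝ) (i j : ℤ) :
    (e (Fl s (Z w) + lat g1 g2 i j) - E1) / c2 = w.1 := by
  rw [h.elat, h.en, hB.en w hw, add_sub_cancel_left]
  exact mul_div_cancel_left₀ _ hB.c0.ne'

theorem img_flow (h : Flw Fl e pp g1 g2) {z : P} (hz : z ∈ Img Fl g1 g2 Z) (s : ℝ) :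
    Fl s z ∈ Img Fl g1 g2 Z := by
  obtain ⟨s', w, i, j, hw, rfl⟩ := hz
  exact ⟨s + s', w, i, j, hw, by rw [h.lat, h.add]⟩

theorem img_lat {z : P} (hz : z ∈ Img Fl g1 g2 Z) (i j : ℤ) :
    z + lat g1 g2 i j ∈ Img Fl g1 g2 Z := by
  obtain ⟨s', w, i', j', hw, rfl⟩ := hz
  exact ⟨s', w, i' + i, j' + j, hw, by rw [add_assoc, lat_add]⟩

/-- Local inverse at a point of the section. -/
theorem Bnd.loc [FiniteDimensional ℝ P] (h : Flw Fl e pp g1 g2)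
    (hB : Bnd Fl e g1 g2 E1 c2 r Z T) {w0 : ℝ × ℝ × ℝ} (hw0 : w0 ∈ Dom) :
    ∃ G : P → ℝ × ℝ × ℝ × ℝ, ContDiffAt ℝ ∞ G (Z w0) ∧ G (Z w0) = (0, w0) ∧
      ∀ᶠ y in 𝓝 (Z w0), Fl (G y).1 (Z (G y).2) = y := by
  have : CompleteSpace P := FiniteDimensional.complete ℝ P
  have hn : (∞ : WithTop ℕ∞) ≠ 0 := by simp
  have hΦ : ContDiffAt ℝ ∞ (fun q : ℝ × ℝ × ℝ × ℝ => Fl q.1 (Z q.2)) (0, w0) := by
    have h1 : ContDiffAt ℝ ∞ (fun q : ℝ × ℝ × ℝ × ℝ => Z q.2) (0, w0) :=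
      ContDiffAt.comp (g := Z) (f := fun q : ℝ × ℝ × ℝ × ℝ => q.2) (0, w0)
        (hB.smooth.contDiffAt (isOpen_dom.mem_nhds hw0)) contDiffAt_snd
    exact ContDiffAt.comp (g := fun q : ℝ × P => Fl q.1 q.2)
      (f := fun q : ℝ × ℝ × ℝ × ℝ => (q.1, Z q.2)) (0, w0) h.smooth.contDiffAt
      (contDiffAt_fst.prodMk h1)
  obtain ⟨hi, hs⟩ := hB.jac w0 hw0
  obtain ⟨L, hL⟩ : ∃ L : (ℝ × ℝ × ℝ × ℝ) ≃L[ℝ] P, (L : (ℝ × ℝ × ℝ × ℝ) →L[ℝ] P) =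
      fderiv ℝ (fun q : ℝ × ℝ × ℝ × ℝ => Fl q.1 (Z q.2)) (0, w0) := by
    refine ⟨ContinuousLinearEquiv.ofBijective _ (LinearMap.ker_eq_bot.2 hi)
      (LinearMap.range_eq_top.2 hs), ?_⟩
    exact ContinuousLinearEquiv.coe_ofBijective _ _ _
  have hd : HasFDerivAt (fun q : ℝ × ℝ × ℝ × ℝ => Fl q.1 (Z q.2))
      (L : (ℝ × ℝ × ℝ × ℝ) →L[ℝ] P) (0, w0) := by
    rw [hL]
    exact (hΦ.differentiableAt hn).hasFDerivAt
  have hst := hΦ.hasStrictFDerivAt' hd hn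
  have hv : Fl ((0 : ℝ), w0).1 (Z ((0 : ℝ), w0).2) = Z w0 := h.zero _
  have h1 : ContDiffAt ℝ ∞ (hΦ.localInverse hd hn) (Fl ((0 : ℝ), w0).1 (Z ((0 : ℝ), w0).2)) :=
    hΦ.to_localInverse hd hn
  have h2 : hΦ.localInverse hd hn (Fl ((0 : ℝ), w0).1 (Z ((0 : ℝ), w0).2)) = (0, w0) :=
    hst.localInverse_apply_image
  have h3 : ∀ᶠ y in 𝓝 (Fl ((0 : ℝ), w0).1 (Z ((0 : ℝ), w0).2)),
      Fl (hΦ.localInverse hd hn y).1 (Z (hΦ.localInverse hd hn y).2) = y :=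
    hst.eventually_right_inverse
  rw [hv] at h1 h2 h3
  exact ⟨hΦ.localInverse hd hn, h1, h2, h3⟩

/-- Local inverse at a point of the image. -/
theorem Bnd.loc' [FiniteDimensional ℝ P] (h : Flw Fl e pp g1 g2)
    (hB : Bnd Fl e g1 g2 E1 c2 r Z T) {w0 : ℝ × ℝ × ℝ} (hw0 : w0 ∈ Dom) (s0 : ℝ) (i j : ℤ) :
    ∃ G : P → ℝ × ℝ × ℝ × ℝ, ContDiffAt ℝ ∞ G (Fl s0 (Z w0) + lat g1 g2 i j) ∧
      ∀ᶠ y in 𝓝 (Fl s0 (Z w0) + lat g1 g2 i j), (G y).2 ∈ Dom ∧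
        y = Fl (G y).1 (Z (G y).2) + lat g1 g2 i j := by
  obtain ⟨G, hG, hG0, hGr⟩ := hB.loc h hw0
  let m : P → P := fun y => Fl (-s0) (y - lat g1 g2 i j)
  have hm : ContDiff ℝ ∞ m := by
    have h1 : ContDiff ℝ ∞ fun y : P => ((-s0, y - lat g1 g2 i j) : ℝ × P) :=
      contDiff_const.prodMk (contDiff_id.sub contDiff_const)
    exact h.smooth.comp h1
  have hm0 : m (Fl s0 (Z w0) + lat g1 g2 i j) = Z w0 := by
    change Fl (-s0) (Fl s0 (Z w0) + lat g1 g2 i j - lat g1 g2 i j) = Z w0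
    rw [add_sub_cancel_right, h.neg]
  have hG' : ContDiffAt ℝ ∞ (fun y => G (m y)) (Fl s0 (Z w0) + lat g1 g2 i j) := by
    refine ContDiffAt.comp (g := G) (f := m) _ ?_ hm.contDiffAt
    rw [hm0]
    exact hG
  refine ⟨fun y => ((G (m y)).1 + s0, (G (m y)).2),
    ((contDiffAt_fst.comp _ hG').add contDiffAt_const).prodMk (contDiffAt_snd.comp _ hG'), ?_⟩
  have hc : Tendsto m (𝓝 (Fl s0 (Z w0) + lat g1 g2 i j)) (𝓝 (Z w0)) := by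
    have := hm.continuous.tendsto (Fl s0 (Z w0) + lat g1 g2 i j)
    rwa [hm0] at this
  have hd : ∀ᶠ y in 𝓝 (Z w0), (G y).2 ∈ Dom := by
    have h1 : Tendsto (fun y => (G y).2) (𝓝 (Z w0)) (𝓝 w0) := by
      have h2 : ContinuousAt (fun y => (G y).2) (Z w0) := hG.continuousAt.snd
      have h3 := h2.tendsto
      rwa [hG0] at h3
    exact h1.eventually (isOpen_dom.mem_nhds hw0)
  filter_upwards [hc.eventually hGr, hc.eventually hd] with y h1 h2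
  refine ⟨h2, ?_⟩
  have h3 : Fl ((G (m y)).1 + s0) (Z (G (m y)).2) = Fl s0 (m y) := by
    rw [add_comm, h.add, h1]
  change y = Fl ((G (m y)).1 + s0) (Z (G (m y)).2) + lat g1 g2 i j
  rw [h3]
  change y = Fl s0 (Fl (-s0) (y - lat g1 g2 i j)) + lat g1 g2 i j
  rw [← h.add, add_neg_cancel, h.zero, sub_add_cancel]

theorem img_open [FiniteDimensional ℝ P] (h : Flw Fl e pp g1 g2)
    (hB : Bnd Fl e g1 g2 E1 c2 r Z T) : IsOpen (Img Fl g1 g2 Z) := by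
  rw [isOpen_iff_mem_nhds]
  rintro z ⟨s, w, i, j, hw, rfl⟩
  obtain ⟨G, -, hG⟩ := hB.loc' h hw s i j
  filter_upwards [hG] with y hy
  exact ⟨_, _, i, j, hy.1, hy.2⟩

theorem lab_smooth [FiniteDimensional ℝ P] (h : Flw Fl e pp g1 g2)
    (hB : Bnd Fl e g1 g2 E1 c2 r Z T) {z : P} (hz : z ∈ Img Fl g1 g2 Z) :
    ContDiffAt ℝ ∞ (lab Fl g1 g2 Z) z := by
  obtain ⟨s, w, i, j, hw, rfl⟩ := hz
  obtain ⟨G, hG, hG2⟩ := hB.loc' h hw s i j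
  have h1 : ContDiffAt ℝ ∞ (fun y => (G y).2.2.2) (Fl s (Z w) + lat g1 g2 i j) :=
    contDiffAt_snd.comp _ (contDiffAt_snd.comp _ (contDiffAt_snd.comp _ hG))
  refine h1.congr_of_eventuallyEq ?_
  filter_upwards [hG2] with y hy
  have h2 := lab_eq h hB hy.1 (G y).1 i j
  rw [← hy.2] at h2
  exact h2

end Pool.Agent.DF
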