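import Pool.Agent.DF.BFun

/-!
# MP_74f563_an, n = 2 autonomous (D2), file DF/BInt: the smooth first integral of a band

`red`: every point of an orbit of the band is, modulo the lattice, `Fl s (Z (a, θ, t))` with
`0 ≤ s ≤ M`, `0 ≤ θ ≤ 1`.  `isClosed_S`: the part `|a|, |t| ≤ κ` of the image is closed.
`exists_fun`: the first integral.
-/

set_option autoImplicit false

namespace Pool.Agent.DF

open Set Filter Topology
open scoped ContDiff

variable {P : Type} [NormedAddCommGroup P] [NormedSpace ℝ P]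
  {Fl : ℝ → P → P} {e : P → ℝ} {pp : P →L[ℝ] ℝ × ℝ} {g1 g2 : P} {E1 c2 r κ : ℝ}
  {Z : ℝ × ℝ × ℝ → P} {T : ℝ × ℝ × ℝ → ℝ}

/-- the part `|a|, |t| ≤ κ` of the image -/
def Sk (Fl : ℝ → P → P) (g1 g2 : P) (Z : ℝ × ℝ × ℝ → P) (κ : ℝ) : Set P :=
  {z | ∃ (s : ℝ) (w : ℝ × ℝ × ℝ) (i j : ℤ), |w.1| ≤ κ ∧ |w.2.2| ≤ κ ∧
    z = Fl s (Z w) + lat g1 g2 i j}

theorem red (h : Flw Fl e pp g1 g2) (hB : Bnd Fl e g1 g2 E1 c2 r Z T) (hκ : κ < 1 / 4) :
    ∃ M : ℝ, ∀ (a t : ℝ), |a| ≤ κ → |t| ≤ κ → ∀ s θ : ℝ, ∃ (s' θ' : ℝ) (i j : ℤ),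
      0 ≤ s' ∧ s' ≤ M ∧ 0 ≤ θ' ∧ θ' ≤ 1 ∧
      Fl s (Z (a, θ, t)) = Fl s' (Z (a, θ', t)) + lat g1 g2 i j := by
  obtain ⟨τ, M, hτ, hb⟩ := hB.bdd hκ
  refine ⟨M, fun a t ha ht s θ => ?_⟩
  have ha' : |a| < 1 / 4 := by linarith
  have ht' : |t| < 1 / 4 := by linarith
  have hM : τ ≤ M := (hb a 0 t ha ht).1.trans (hb a 0 t ha ht).2
  -- forward
  have fw : ∀ (n : ℕ) (s θ : ℝ), 0 ≤ s → s ≤ n * τ → ∃ (s' θ' : ℝ) (i : ℤ), 0 ≤ s' ∧ s' ≤ M ∧
      Fl s (Z (a, θ, t)) = Fl s' (Z (a, θ', t)) + lat g1 g2 i 0 := by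
    intro n
    induction n with
    | zero =>
      intro s θ h0 h1
      have : s = 0 := le_antisymm (by simpa using h1) h0
      exact ⟨0, θ, 0, le_rfl, by linarith, by rw [this, lat_zero, add_zero]⟩
    | succ n ih =>
      intro s θ h0 h1
      rcases le_or_gt s M with hs | hs
      · exact ⟨s, θ, 0, h0, hs, by rw [lat_zero, add_zero]⟩
      · obtain ⟨b1, b2⟩ := hb a θ t ha ht
        obtain ⟨s', θ', i, c1, c2, c3⟩ := ih (s - T (a, θ, t)) (θ + r * (1 + t)) (by linarith) (by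
          push_cast at h1
          linarith)
        refine ⟨s', θ', i + 1, c1, c2, ?_⟩
        have e1 : Fl s (Z (a, θ, t)) = Fl (s - T (a, θ, t)) (Fl (T (a, θ, t)) (Z (a, θ, t))) := by
          rw [← h.add, sub_add_cancel]
        rw [e1, hB.ret a θ t ⟨ha', ht'⟩, h.tr1, c3, add_assoc]
        congr 1
        have e2 : lat g1 g2 i 0 + g1 = lat g1 g2 i 0 + lat g1 g2 1 0 := by rw [lat_one]
        rw [e2, lat_add]
        rfl
  -- backward
  have bw : ∀ (n : ℕ) (s θ : ℝ), s ≤ 0 → -(n * τ) ≤ s → ∃ (s' θ' : ℝ) (i : ℤ), 0 ≤ s' ∧ s' ≤ M ∧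
      Fl s (Z (a, θ, t)) = Fl s' (Z (a, θ', t)) + lat g1 g2 i 0 := by
    intro n
    induction n with
    | zero =>
      intro s θ h0 h1
      have : s = 0 := le_antisymm h0 (by simpa using h1)
      exact ⟨0, θ, 0, le_rfl, by linarith, by rw [this, lat_zero, add_zero]⟩
    | succ n ih =>
      intro s θ h0 h1
      obtain ⟨b1, b2⟩ := hb a (θ - r * (1 + t)) t ha ht
      have e0 := hB.ret a (θ - r * (1 + t)) t ⟨ha', ht'⟩
      rw [sub_add_cancel] at e0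
      have e1 : Fl s (Z (a, θ, t)) = Fl (s + T (a, θ - r * (1 + t), t))
          (Z (a, θ - r * (1 + t), t)) + lat g1 g2 (-1) 0 := by
        have e2 : Z (a, θ, t) = Fl (T (a, θ - r * (1 + t), t)) (Z (a, θ - r * (1 + t), t)) +
            lat g1 g2 (-1) 0 := by
          have e3 : lat g1 g2 (-1) 0 = -g1 := by
            have := lat_neg (g1 := g1) (g2 := g2) 1 0
            rw [lat_one] at this
            simpa using this.symm
          rw [e0, e3, add_neg_cancel_right]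
        rw [e2, h.lat, ← h.add]
      rcases le_or_gt 0 (s + T (a, θ - r * (1 + t), t)) with hs | hs
      · exact ⟨_, _, -1, hs, by linarith, e1⟩
      · obtain ⟨s', θ', i, c1, c2, c3⟩ := ih (s + T (a, θ - r * (1 + t), t)) (θ - r * (1 + t))
          hs.le (by
            push_cast at h1
            linarith)
        refine ⟨s', θ', i + -1, c1, c2, ?_⟩
        rw [e1, c3, add_assoc, lat_add]
        rfl
  obtain ⟨s', θ', i, c1, c2, c3⟩ : ∃ (s' θ' : ℝ) (i : ℤ), 0 ≤ s' ∧ s' ≤ M ∧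
      Fl s (Z (a, θ, t)) = Fl s' (Z (a, θ', t)) + lat g1 g2 i 0 := by
    rcases le_total 0 s with hs | hs
    · obtain ⟨n, hn⟩ := exists_nat_gt (s / τ)
      rw [div_lt_iff₀ hτ] at hn
      exact fw n s θ hs hn.le
    · obtain ⟨n, hn⟩ := exists_nat_gt (-s / τ)
      rw [div_lt_iff₀ hτ] at hn
      exact bw n s θ hs (by linarith)
  refine ⟨s', Int.fract θ', i, ⌊θ'⌋, c1, c2, Int.fract_nonneg _, (Int.fract_lt_one _).le, ?_⟩
  rw [c3, hB.fract ha' ht' θ', h.lat, add_assoc, lat_add, zero_add, add_zero]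

/-- a compact set which covers `Sk` modulo the lattice -/
theorem exists_K (h : Flw Fl e pp g1 g2) (hB : Bnd Fl e g1 g2 E1 c2 r Z T) (hκ : κ < 1 / 4) :
    ∃ K : Set P, IsCompact K ∧ K ⊆ Sk Fl g1 g2 Z κ ∧
      ∀ z ∈ Sk Fl g1 g2 Z κ, ∃ z' ∈ K, ∃ i j : ℤ, z = z' + lat g1 g2 i j := by
  obtain ⟨M, hM⟩ := red h hB hκ
  have hK : IsCompact (Icc (0 : ℝ) M ×ˢ Icc (-κ) κ ×ˢ Icc (0 : ℝ) 1 ×ˢ Icc (-κ) κ) :=
    isCompact_Icc.prod (isCompact_Icc.prod (isCompact_Icc.prod isCompact_Icc))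
  have hsub : ∀ q ∈ Icc (0 : ℝ) M ×ˢ Icc (-κ) κ ×ˢ Icc (0 : ℝ) 1 ×ˢ Icc (-κ) κ, q.2 ∈ Dom := by
    rintro ⟨s, a, θ, t⟩ ⟨-, ha, -, ht⟩
    exact ⟨lt_of_le_of_lt (abs_le.2 ha) hκ, lt_of_le_of_lt (abs_le.2 ht) hκ⟩
  have hc : ContinuousOn (fun q : ℝ × ℝ × ℝ × ℝ => Fl q.1 (Z q.2))
      (Icc (0 : ℝ) M ×ˢ Icc (-κ) κ ×ˢ Icc (0 : ℝ) 1 ×ˢ Icc (-κ) κ) :=
    h.smooth.continuous.comp_continuousOn
      (continuousOn_fst.prodMk (hB.smooth.continuousOn.comp continuousOn_snd hsub))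
  refine ⟨_, hK.image_of_continuousOn hc, ?_, ?_⟩
  · rintro z ⟨⟨s, a, θ, t⟩, ⟨-, ha, -, ht⟩, rfl⟩
    exact ⟨s, (a, θ, t), 0, 0, abs_le.2 ha, abs_le.2 ht, by rw [lat_zero, add_zero]⟩
  · rintro z ⟨s, ⟨a, θ, t⟩, i, j, ha, ht, rfl⟩
    obtain ⟨s', θ', i', j', b1, b2, b3, b4, b5⟩ := hM a t ha ht s θ
    refine ⟨_, ⟨(s', a, θ', t), ⟨⟨b1, b2⟩, abs_le.1 ha, ⟨b3, b4⟩, abs_le.1 ht⟩, rfl⟩,
      i' + i, j' + j, ?_⟩
    rw [b5, add_assoc, lat_add]

theorem Sk_lat {z : P} (hz : z ∈ Sk Fl g1 g2 Z κ) (i j : ℤ) :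
    z + lat g1 g2 i j ∈ Sk Fl g1 g2 Z κ := by
  obtain ⟨s', w, i', j', h1, h2, rfl⟩ := hz
  exact ⟨s', w, i' + i, j' + j, h1, h2, by rw [add_assoc, lat_add]⟩

theorem isClosed_S {Q : Type} [TopologicalSpace Q] [T2Space Q] {pr : P → Q} (hpr : Continuous pr)
    (hq : ∀ z z', pr z = pr z' ↔ ∃ i j : ℤ, z = z' + lat g1 g2 i j) (h : Flw Fl e pp g1 g2)
    (hB : Bnd Fl e g1 g2 E1 c2 r Z T) (hκ : κ < 1 / 4) : IsClosed (Sk Fl g1 g2 Z κ) := by
  obtain ⟨K, hK, hK1, hK2⟩ := exists_K h hB hκ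
  have h1 : Sk Fl g1 g2 Z κ = pr ⁻¹' (pr '' K) := by
    ext z
    constructor
    · intro hz
      obtain ⟨z', hz', i, j, h1⟩ := hK2 z hz
      exact ⟨z', hz', ((hq z z').2 ⟨i, j, h1⟩).symm⟩
    · rintro ⟨z', hz', h1⟩
      obtain ⟨i, j, h2⟩ := (hq z z').1 h1.symm
      rw [h2]
      exact Sk_lat (hK1 hz') i j
  rw [h1]
  exact (hK.image hpr).isClosed.preimage hpr

/-- a smooth cut-off function -/
theorem exists_cut {x κ : ℝ} (hx : |x| < κ) :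
    ∃ χ : ℝ → ℝ, ContDiff ℝ ∞ χ ∧ χ x = 1 ∧ ∀ y, κ < |y| → χ y = 0 := by
  obtain ⟨χ, h1, -, h3, -, h5⟩ := exists_contDiff_tsupport_subset (E := ℝ) (n := (⊤ : ℕ∞))
    (s := Ioo (-κ) κ) (x := x) (isOpen_Ioo.mem_nhds (abs_lt.1 hx))
  refine ⟨χ, h3, h5, fun y hy => ?_⟩
  by_contra h0
  have h6 : y ∈ tsupport χ := subset_tsupport χ h0
  have h7 := abs_lt.2 (h1 h6)
  linarith

theorem Bnd.exists_fun [FiniteDimensional ℝ P] {Q : Type} [TopologicalSpace Q] [T2Space Q]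
    {pr : P → Q} (hpr : Continuous pr)
    (hq : ∀ z z', pr z = pr z' ↔ ∃ i j : ℤ, z = z' + lat g1 g2 i j) (h : Flw Fl e pp g1 g2)
    (hB : Bnd Fl e g1 g2 E1 c2 r Z T) {w0 : ℝ × ℝ × ℝ} (hw0 : w0 ∈ Dom) :
    ∃ f : P → ℝ, ContDiff ℝ ∞ f ∧ (∀ k, ∃ C, ∀ z, ‖iteratedFDeriv ℝ k f z‖ ≤ C) ∧
      (∀ s z, f (Fl s z) = f z) ∧ (∀ z i j, f (z + lat g1 g2 i j) = f z) ∧
      ∀ (s : ℝ) (i j : ℤ), ∃ u, fderiv ℝ e (Fl s (Z w0) + lat g1 g2 i j) u = 0 ∧
        fderiv ℝ f (Fl s (Z w0) + lat g1 g2 i j) u ≠ 0 := by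
  classical
  obtain ⟨a0, θ0, t0⟩ := w0
  have ha0 : |a0| < 1 / 4 := hw0.1
  have ht0 : |t0| < 1 / 4 := hw0.2
  obtain ⟨κ, hκ1, hκ⟩ := exists_between (max_lt ha0 ht0)
  have hκa : |a0| < κ := (le_max_left _ _).trans_lt hκ1
  have hκt : |t0| < κ := (le_max_right _ _).trans_lt hκ1
  obtain ⟨χ1, c1, c2', c3⟩ := exists_cut hκa
  obtain ⟨χ2, d1, d2, d3⟩ := exists_cut hκt
  let F : P → ℝ := fun z => χ1 ((e z - E1) / c2) * (χ2 (lab Fl g1 g2 Z z) *
    (lab Fl g1 g2 Z z - t0))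
  let f : P → ℝ := (Img Fl g1 g2 Z).indicator F
  have hU := img_open h hB
  have hfF : ∀ z ∈ Img Fl g1 g2 Z, f =ᶠ[𝓝 z] F := fun z hz => by
    filter_upwards [hU.mem_nhds hz] with y hy
    exact indicator_of_mem hy F
  have hF : ∀ z ∈ Img Fl g1 g2 Z, ContDiffAt ℝ ∞ F z := fun z hz => by
    have h1 := lab_smooth h hB hz
    have h2 : ContDiffAt ℝ ∞ (fun z => (e z - E1) / c2) z :=
      ((h.es.contDiffAt).sub contDiffAt_const).div_const c2
    exact (ContDiffAt.comp (g := χ1) z c1.contDiffAt h2).mul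
      ((ContDiffAt.comp (g := χ2) z d1.contDiffAt h1).mul (h1.sub contDiffAt_const))
  -- the value on the image
  have hval : ∀ (s : ℝ) (w : ℝ × ℝ × ℝ) (i j : ℤ), w ∈ Dom →
      f (Fl s (Z w) + lat g1 g2 i j) = χ1 w.1 * (χ2 w.2.2 * (w.2.2 - t0)) := by
    intro s w i j hw
    have hmem : Fl s (Z w) + lat g1 g2 i j ∈ Img Fl g1 g2 Z := ⟨s, w, i, j, hw, rfl⟩
    have h1 : f (Fl s (Z w) + lat g1 g2 i j) = F (Fl s (Z w) + lat g1 g2 i j) :=
      indicator_of_mem hmem F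
    rw [h1]
    change χ1 ((e (Fl s (Z w) + lat g1 g2 i j) - E1) / c2) *
      (χ2 (lab Fl g1 g2 Z (Fl s (Z w) + lat g1 g2 i j)) *
      (lab Fl g1 g2 Z (Fl s (Z w) + lat g1 g2 i j) - t0)) = _
    rw [lab_eq h hB hw, elab_eq h hB hw]
  -- it vanishes outside of the closed set
  have hz0 : ∀ z, z ∉ Sk Fl g1 g2 Z κ → f z = 0 := by
    intro z hz
    by_cases hzI : z ∈ Img Fl g1 g2 Z
    · obtain ⟨s, w, i, j, hw, rfl⟩ := hzI
      rw [hval s w i j hw]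
      by_cases h1 : |w.1| ≤ κ
      · by_cases h2 : |w.2.2| ≤ κ
        · exact absurd ⟨s, w, i, j, h1, h2, rfl⟩ hz
        · rw [d3 _ (not_le.1 h2), zero_mul, mul_zero]
      · rw [c3 _ (not_le.1 h1), zero_mul]
    · exact indicator_of_notMem hzI F
  have hcl := isClosed_S hpr hq h hB hκ
  have hfz : ∀ z, z ∉ Sk Fl g1 g2 Z κ → f =ᶠ[𝓝 z] fun _ => (0 : ℝ) := fun z hz => by
    filter_upwards [hcl.isOpen_compl.mem_nhds hz] with y hy
    exact hz0 y hy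
  have hfs : ContDiff ℝ ∞ f := by
    rw [contDiff_iff_contDiffAt]
    intro z
    by_cases hz : z ∈ Sk Fl g1 g2 Z κ
    · obtain ⟨s, w, i, j, h1, h2, rfl⟩ := hz
      have hzI : Fl s (Z w) + lat g1 g2 i j ∈ Img Fl g1 g2 Z :=
        ⟨s, w, i, j, ⟨by linarith, by linarith⟩, rfl⟩
      exact (hF _ hzI).congr_of_eventuallyEq (hfF _ hzI)
    · exact contDiffAt_const.congr_of_eventuallyEq (hfz z hz)
  have hlat : ∀ z i j, f (z + lat g1 g2 i j) = f z := by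
    intro z i j
    by_cases hzI : z ∈ Img Fl g1 g2 Z
    · obtain ⟨s, w, i', j', hw, rfl⟩ := hzI
      rw [add_assoc, lat_add, hval _ _ _ _ hw, hval _ _ _ _ hw]
    · have h1 : z + lat g1 g2 i j ∉ Img Fl g1 g2 Z := fun h1 => by
        have h2 := img_lat h1 (-i) (-j)
        rw [add_assoc, lat_add, add_neg_cancel, add_neg_cancel, lat_zero, add_zero] at h2
        exact hzI h2
      exact (indicator_of_notMem h1 F).trans (indicator_of_notMem hzI F).symm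
  have hflow : ∀ s z, f (Fl s z) = f z := by
    intro s z
    by_cases hzI : z ∈ Img Fl g1 g2 Z
    · obtain ⟨s', w, i', j', hw, rfl⟩ := hzI
      rw [h.lat, ← h.add, hval _ _ _ _ hw, hval _ _ _ _ hw]
    · have h1 : Fl s z ∉ Img Fl g1 g2 Z := fun h1 => by
        have h2 := img_flow h h1 (-s)
        rw [h.neg] at h2
        exact hzI h2
      exact (indicator_of_notMem h1 F).trans (indicator_of_notMem hzI F).symm
  clear_value f
  refine ⟨f, hfs, fun k => ?_, hflow, hlat, fun s i j => ?_⟩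
  · -- bounded derivatives
    obtain ⟨K, hK, hK1, hK2⟩ := exists_K h hB hκ
    have hc : Continuous fun z => iteratedFDeriv ℝ k f z :=
      hfs.continuous_iteratedFDeriv (by exact_mod_cast le_top)
    obtain ⟨C, hC⟩ := hK.exists_bound_of_continuousOn hc.continuousOn
    refine ⟨max C ‖iteratedFDeriv ℝ k (fun _ : P => (0 : ℝ)) 0‖, fun z => ?_⟩
    by_cases hz : z ∈ Sk Fl g1 g2 Z κ
    · obtain ⟨z', hz', i, j, rfl⟩ := hK2 z hz
      have h1 : iteratedFDeriv ℝ k f (z' + lat g1 g2 i j) = iteratedFDeriv ℝ k f z' := by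
        have h2 := iteratedFDeriv_comp_add_right (𝕜 := ℝ) (f := f) k (lat g1 g2 i j) (x := z')
        rw [← h2]
        congr 1
        funext y
        exact hlat y i j
      rw [h1]
      exact (hC z' hz').trans (le_max_left _ _)
    · have h1 : iteratedFDeriv ℝ k f z = iteratedFDeriv ℝ k (fun _ : P => (0 : ℝ)) z :=
        (hfz z hz).iteratedFDeriv ℝ k |>.self_of_nhds
      have h2 : iteratedFDeriv ℝ k (fun _ : P => (0 : ℝ)) z =
          iteratedFDeriv ℝ k (fun _ : P => (0 : ℝ)) 0 := by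
        simp
      rw [h1, h2]
      exact le_max_right _ _
  · -- the direction
    let m : P → P := fun y => Fl s y + lat g1 g2 i j
    have hm : ContDiff ℝ ∞ m := by
      have h1 : ContDiff ℝ ∞ fun y : P => ((s, y) : ℝ × P) := contDiff_const.prodMk contDiff_id
      exact (h.smooth.comp h1).add contDiff_const
    let c : ℝ → P := fun t => Z (a0, θ0, t)
    have hn : (∞ : WithTop ℕ∞) ≠ 0 := by simp
    have hZ : DifferentiableAt ℝ Z (a0, θ0, t0) :=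
      (hB.smooth.contDiffAt (isOpen_dom.mem_nhds hw0)).differentiableAt hn
    have hcd : DifferentiableAt ℝ c t0 := by
      have h1 : DifferentiableAt ℝ (fun t : ℝ => ((a0, θ0, t) : ℝ × ℝ × ℝ)) t0 := by fun_prop
      exact DifferentiableAt.comp (g := Z) (f := fun t : ℝ => ((a0, θ0, t) : ℝ × ℝ × ℝ)) t0 hZ h1
    have hcm : HasDerivAt (fun t => m (c t)) (fderiv ℝ m (c t0) (deriv c t0)) t0 :=
      ((hm.differentiable hn) (c t0)).hasFDerivAt.comp_hasDerivAt t0 hcd.hasDerivAt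
    have hnear : ∀ᶠ t in 𝓝 t0, (a0, θ0, t) ∈ Dom := by
      have h1 : ContinuousAt (fun t : ℝ => ((a0, θ0, t) : ℝ × ℝ × ℝ)) t0 := by fun_prop
      exact h1.eventually (isOpen_dom.mem_nhds hw0)
    refine ⟨fderiv ℝ m (c t0) (deriv c t0), ?_, ?_⟩
    · have h1 : HasDerivAt (fun t => e (m (c t))) (fderiv ℝ e (m (c t0))
          (fderiv ℝ m (c t0) (deriv c t0))) t0 :=
        ((h.es.differentiable hn) (m (c t0))).hasFDerivAt.comp_hasDerivAt t0 hcm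
      have h2 : (fun t => e (m (c t))) =ᶠ[𝓝 t0] fun _ => E1 + c2 * a0 := by
        filter_upwards [hnear] with t ht
        change e (Fl s (Z (a0, θ0, t)) + lat g1 g2 i j) = _
        rw [h.elat, h.en, hB.en _ ht]
      exact (h1.congr_of_eventuallyEq h2.symm).unique (hasDerivAt_const t0 (E1 + c2 * a0))
    · have h0 : HasFDerivAt f (fderiv ℝ f (m (c t0))) (m (c t0)) :=
        ((hfs.differentiable hn) (m (c t0))).hasFDerivAt
      have h1 : HasDerivAt (fun t => f (m (c t))) (fderiv ℝ f (m (c t0))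
          (fderiv ℝ m (c t0) (deriv c t0))) t0 := h0.comp_hasDerivAt t0 hcm
      have h2 : (fun t => f (m (c t))) =ᶠ[𝓝 t0] fun t => χ1 a0 * (χ2 t * (t - t0)) := by
        filter_upwards [hnear] with t ht
        exact hval s (a0, θ0, t) i j ht
      have h3 : HasDerivAt (fun t => χ1 a0 * (χ2 t * (t - t0)))
          (χ1 a0 * (deriv χ2 t0 * (t0 - t0) + χ2 t0 * 1)) t0 :=
        ((((d1.differentiable hn) t0).hasDerivAt.mul ((hasDerivAt_id t0).sub_const t0))).const_mul _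
      have h4 := (h1.congr_of_eventuallyEq h2.symm).unique h3
      have h5 : χ1 a0 = 1 := c2'
      have h6 : χ2 t0 = 1 := d2
      rw [h5, h6] at h4
      change fderiv ℝ f (m (c t0)) (fderiv ℝ m (c t0) (deriv c t0)) ≠ 0
      rw [h4]
      simp

end Pool.Agent.DF
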