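import Mathlib

/-!
# MP_74f563_an, n = 2 autonomous (D2), file DF/Baire: a smooth sum with nonzero derivatives
(Mathlib only)

PROOF of `exists_sum`.  Put `ε j = (1/2)^j / (1 + ∑_{k ≤ j+1} C_{j,k})`.  For `a ∈ [0,1]^ℕ` the function
`F_a = ∑ a_j ε_j f_j` is smooth (`contDiff_tsum_of_eventually`), and its derivative at `z i` in the
direction `u i` is `∑ a_j ε_j w_{ij}`, `w_{ij} = fderiv (f j) (z i) (u i)` (`hasFDerivAt_tsum`).  For fixed
`i` this is a continuous function of `a`, and the set of its zeros has no interior point, because the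
coordinate `a_{jj i}` can be changed and `w_{i, jj i} ≠ 0`.  By the theorem of Baire there is an `a` which
is in none of these sets.
-/

set_option autoImplicit false

namespace Pool.Agent.DF

open Set Filter Topology
open scoped ContDiff

/-- The theorem of Baire for the zero sets of absolutely convergent linear series. -/
theorem exists_coeff (w : ℕ → ℕ → ℝ) (B : ℕ → ℝ) (hw : ∀ i j, |w i j| ≤ B i * (1 / 2) ^ j)
    (jj : ℕ → ℕ) (h : ∀ i, w i (jj i) ≠ 0) :
    ∃ a : ℕ → ℝ, (∀ j, 0 ≤ a j ∧ a j ≤ 1) ∧ ∀ i, ∑' j, a j * w i j ≠ 0 := by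
  classical
  let K : Type := ℕ → Icc (0 : ℝ) 1
  let S : ℕ → K → ℝ := fun i a => ∑' j, (a j : ℝ) * w i j
  have hbd : ∀ i j (x : Icc (0 : ℝ) 1), ‖(x : ℝ) * w i j‖ ≤ B i * (1 / 2) ^ j := by
    intro i j x
    rw [norm_mul, Real.norm_eq_abs, Real.norm_eq_abs, abs_of_nonneg x.2.1]
    calc (x : ℝ) * |w i j| ≤ 1 * |w i j| := mul_le_mul_of_nonneg_right x.2.2 (abs_nonneg _)
      _ ≤ B i * (1 / 2) ^ j := by rw [one_mul]; exact hw i j
  have hsum : ∀ i, Summable fun j : ℕ => B i * (1 / 2 : ℝ) ^ j := fun i =>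
    (summable_geometric_of_lt_one (by norm_num) (by norm_num)).mul_left (B i)
  have hS : ∀ i (a : K), Summable fun j => (a j : ℝ) * w i j := fun i a =>
    Summable.of_norm_bounded (hsum i) fun j => hbd i j (a j)
  have hcont : ∀ i, Continuous (S i) := fun i =>
    continuous_tsum (fun j => (continuous_subtype_val.comp (continuous_apply j)).mul
      continuous_const) (hsum i) fun j a => hbd i j (a j)
  have hopen : ∀ i, IsOpen {a : K | S i a ≠ 0} := fun i =>
    isOpen_compl_singleton.preimage (hcont i)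
  have hdense : ∀ i, Dense {a : K | S i a ≠ 0} := by
    intro i
    rw [dense_iff_inter_open]
    intro U hU ⟨a, ha⟩
    by_cases h0 : S i a ≠ 0
    · exact ⟨a, ha, h0⟩
    · push Not at h0
      -- change the coordinate `jj i`
      have hc : Continuous fun x : Icc (0 : ℝ) 1 => (Function.update a (jj i) x : K) :=
        continuous_const.update (jj i) continuous_id
      have hV : IsOpen ((fun x : Icc (0 : ℝ) 1 => (Function.update a (jj i) x : K)) ⁻¹' U) :=
        hU.preimage hc
      have hmem : a (jj i) ∈ (fun x : Icc (0 : ℝ) 1 => (Function.update a (jj i) x : K)) ⁻¹' U := by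
        rw [mem_preimage, Function.update_eq_self]
        exact ha
      obtain ⟨x, hx, hne⟩ : ∃ x, x ∈ (fun x : Icc (0 : ℝ) 1 =>
          (Function.update a (jj i) x : K)) ⁻¹' U ∧ x ≠ a (jj i) := by
        by_contra hcon
        push Not at hcon
        have h1 : (fun x : Icc (0 : ℝ) 1 => (Function.update a (jj i) x : K)) ⁻¹' U =
            {a (jj i)} := Subset.antisymm (fun y hy => hcon y hy) (singleton_subset_iff.2 hmem)
        rw [h1] at hV
        exact (not_isOpen_singleton (a (jj i))) hV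
      refine ⟨Function.update a (jj i) x, hx, ?_⟩
      change S i (Function.update a (jj i) x) ≠ 0
      have h2 : S i (Function.update a (jj i) x) - S i a = ((x : ℝ) - (a (jj i) : ℝ)) *
          w i (jj i) := by
        have h3 : S i (Function.update a (jj i) x) - S i a =
            ∑' j, ((Function.update a (jj i) x j : ℝ) * w i j - (a j : ℝ) * w i j) :=
          ((hS i _).tsum_sub (hS i a)).symm
        rw [h3, tsum_eq_single (jj i)]
        · rw [Function.update_self]
          ring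
        · intro j hj
          rw [Function.update_of_ne hj]
          ring
      rw [h0, sub_zero] at h2
      rw [h2]
      refine mul_ne_zero (sub_ne_zero.2 fun he => hne (Subtype.ext he)) (h i)
  have hB := dense_iInter_of_isOpen_nat hopen hdense
  obtain ⟨a, ha⟩ := hB.nonempty
  rw [mem_iInter] at ha
  exact ⟨fun j => a j, fun j => ⟨(a j).2.1, (a j).2.2⟩, ha⟩

variable {P : Type} [NormedAddCommGroup P] [NormedSpace ℝ P]

theorem exists_sum (f : ℕ → P → ℝ) (hf : ∀ j, ContDiff ℝ ∞ (f j))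
    (hb : ∀ j k, ∃ C, ∀ z, ‖iteratedFDeriv ℝ k (f j) z‖ ≤ C) (z u : ℕ → P) (jj : ℕ → ℕ)
    (h : ∀ i, fderiv ℝ (f (jj i)) (z i) (u i) ≠ 0) :
    ∃ c : ℕ → ℝ, (∀ x, Summable fun j => c j * f j x) ∧
      ContDiff ℝ ∞ (fun x => ∑' j, c j * f j x) ∧
      ∀ i, fderiv ℝ (fun x => ∑' j, c j * f j x) (z i) (u i) ≠ 0 := by
  classical
  choose C hC using hb
  have hC0 : ∀ i k, 0 ≤ C i k := fun i k => (norm_nonneg _).trans (hC i k 0)
  let S : ℕ → ℝ := fun i => 1 + ∑ k ∈ Finset.range (i + 2), C i k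
  have hS : ∀ i, 0 < S i := by
    intro i
    have : 0 ≤ ∑ k ∈ Finset.range (i + 2), C i k := Finset.sum_nonneg fun k _ => hC0 i k
    show 0 < 1 + ∑ k ∈ Finset.range (i + 2), C i k
    linarith
  have hCS : ∀ i k, k ≤ i + 1 → C i k ≤ S i := by
    intro i k hk
    have h1 : C i k ≤ ∑ k ∈ Finset.range (i + 2), C i k :=
      Finset.single_le_sum (f := fun k => C i k) (fun k _ => hC0 i k)
        (Finset.mem_range.2 (by omega))
    show C i k ≤ 1 + ∑ k ∈ Finset.range (i + 2), C i k
    linarith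
  let ε : ℕ → ℝ := fun i => (1 / 2 : ℝ) ^ i / S i
  have hε0 : ∀ i, 0 < ε i := fun i => div_pos (by positivity) (hS i)
  have hεC : ∀ i k, k ≤ i + 1 → ε i * C i k ≤ (1 / 2 : ℝ) ^ i := by
    intro i k hk
    calc ε i * C i k ≤ ε i * S i := mul_le_mul_of_nonneg_left (hCS i k hk) (hε0 i).le
      _ = (1 / 2 : ℝ) ^ i := div_mul_cancel₀ _ (hS i).ne'
  have hd1 : ∀ j x v, |fderiv ℝ (f j) x v| ≤ C j 1 * ‖v‖ := by
    intro j x v
    rw [← Real.norm_eq_abs]
    refine (ContinuousLinearMap.le_opNorm _ v).trans (mul_le_mul_of_nonneg_right ?_ (norm_nonneg v))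
    rw [← norm_iteratedFDeriv_one]
    exact hC j 1 x
  obtain ⟨a, ha01, ha⟩ := exists_coeff (fun i j => ε j * fderiv ℝ (f j) (z i) (u i))
    (fun i => ‖u i‖) (fun i j => by
      rw [abs_mul, abs_of_pos (hε0 j)]
      calc ε j * |fderiv ℝ (f j) (z i) (u i)| ≤ ε j * (C j 1 * ‖u i‖) :=
            mul_le_mul_of_nonneg_left (hd1 j _ _) (hε0 j).le
        _ = ‖u i‖ * (ε j * C j 1) := by ring
        _ ≤ ‖u i‖ * (1 / 2) ^ j := mul_le_mul_of_nonneg_left (hεC j 1 (by omega)) (norm_nonneg _))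
    jj (fun i => mul_ne_zero (hε0 _).ne' (h i))
  let c : ℕ → ℝ := fun j => a j * ε j
  have hc0 : ∀ j, 0 ≤ c j := fun j => mul_nonneg (ha01 j).1 (hε0 j).le
  have hcε : ∀ j, c j ≤ ε j := fun j => by
    calc a j * ε j ≤ 1 * ε j := mul_le_mul_of_nonneg_right (ha01 j).2 (hε0 j).le
      _ = ε j := one_mul _
  have hcC : ∀ j k, k ≤ j + 1 → c j * C j k ≤ (1 / 2 : ℝ) ^ j := fun j k hk =>
    (mul_le_mul_of_nonneg_right (hcε j) (hC0 j k)).trans (hεC j k hk)
  have hsum : Summable fun j : ℕ => (1 / 2 : ℝ) ^ j :=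
    summable_geometric_of_lt_one (by norm_num) (by norm_num)
  let F : ℕ → P → ℝ := fun j x => c j * f j x
  have hF : ∀ j, ContDiff ℝ ∞ (F j) := fun j => contDiff_const.mul (hf j)
  have hFk : ∀ i k x, ‖iteratedFDeriv ℝ k (F i) x‖ = c i * ‖iteratedFDeriv ℝ k (f i) x‖ := by
    intro i k x
    have h1 : F i = c i • f i := by
      funext x
      rfl
    rw [h1, iteratedFDeriv_const_smul_apply ((hf i).contDiffAt.of_le (by exact_mod_cast le_top)),
      norm_smul, Real.norm_of_nonneg (hc0 i)]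
  have hFC : ∀ i k x, ‖iteratedFDeriv ℝ k (F i) x‖ ≤ c i * C i k := by
    intro i k x
    rw [hFk]
    exact mul_le_mul_of_nonneg_left (hC i k x) (hc0 i)
  have hF0 : ∀ x, Summable fun j => F j x := fun x => by
    refine Summable.of_norm_bounded hsum fun i => ?_
    rw [← norm_iteratedFDeriv_zero (𝕜 := ℝ)]
    exact (hFC i 0 x).trans (hcC i 0 (by omega))
  refine ⟨c, hF0, ?_, fun i => ?_⟩
  · have h1 : ContDiff ℝ ∞ fun x => ∑' j, F j x := by
      refine contDiff_tsum_of_eventually (v := fun _ j => (1 / 2 : ℝ) ^ j)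
        hF (fun _ _ => hsum) fun k _ => ?_
      have h2 : {j : ℕ | ¬ ∀ x, ‖iteratedFDeriv ℝ k (F j) x‖ ≤ (1 / 2 : ℝ) ^ j} ⊆ Set.Iio k := by
        intro j hj
        by_contra hcon
        apply hj
        intro x
        have h3 : k ≤ j + 1 := by
          simp only [mem_Iio, not_lt] at hcon
          omega
        exact (hFC j k x).trans (hcC j k h3)
      exact (Set.finite_Iio k).subset h2
    exact h1
  · have hdF : ∀ j x, ‖fderiv ℝ (F j) x‖ ≤ (1 / 2 : ℝ) ^ j := by
      intro j x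
      rw [← norm_iteratedFDeriv_one]
      exact (hFC j 1 x).trans (hcC j 1 (by omega))
    have hD : HasFDerivAt (fun x => ∑' j, F j x) (∑' j, fderiv ℝ (F j) (z i)) (z i) :=
      hasFDerivAt_tsum hsum
        (fun j x => ((hF j).differentiable (by simp)).differentiableAt.hasFDerivAt) hdF
        (hF0 (z i)) (z i)
    have hsD : Summable fun j => fderiv ℝ (F j) (z i) :=
      Summable.of_norm_bounded hsum fun j => hdF j (z i)
    have hval : (∑' j, fderiv ℝ (F j) (z i)) (u i) = ∑' j, fderiv ℝ (F j) (z i) (u i) :=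
      (ContinuousLinearMap.apply ℝ ℝ (u i)).map_tsum hsD
    have hDz : ∀ j, fderiv ℝ (F j) (z i) (u i) = a j * (ε j * fderiv ℝ (f j) (z i) (u i)) := by
      intro j
      have h2 := (((hf j).differentiable (by simp)).differentiableAt (x := z i)).hasFDerivAt.const_mul
        (c j)
      have h3 : HasFDerivAt (F j) _ (z i) := h2
      rw [h3.fderiv]
      simp only [_root_.smul_apply, smul_eq_mul]
      change a j * ε j * _ = _
      ring
    have h4 : fderiv ℝ (fun x => ∑' j, F j x) (z i) (u i) =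
        ∑' j, a j * (ε j * fderiv ℝ (f j) (z i) (u i)) := by
      rw [hD.fderiv, hval, tsum_congr hDz]
    change fderiv ℝ (fun x => ∑' j, F j x) (z i) (u i) ≠ 0
    rw [h4]
    exact ha i

end Pool.Agent.DF
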