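import Pool.Agent.DV.Flow
import Pool.Agent.DB.Defs

/-!
# MP_74f563_an, n = 2 autonomous (D2), file DF/Dyn: the dictionary `Vec 2 × Vec 2 ↔ R2 × R2`

`iso : R2 ≃L[ℝ] Vec 2`, `iso2 : PP ≃L[ℝ] Vec 2 × Vec 2`; `Lr ℓ = ℓ ∘ iso2`,
`Fr ℓ t = iso2⁻¹ ∘ fl ℓ t ∘ iso2`.  `dyn_of`: `DB.Dyn (Lr ℓ) (Fr ℓ)`.
-/

set_option autoImplicit false

namespace Pool.Agent.DF

open Set Filter Topology Pool.Agent.MechAlpha Pool.Agent.DV Pool.Agent.NOne
open scoped ContDiff RealInnerProductSpace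

abbrev R2 : Type := DB.R2
abbrev PP : Type := DB.PP

/-- the standard isomorphism -/
noncomputable def iso : R2 ≃L[ℝ] Vec 2 :=
  (ContinuousLinearEquiv.finTwoArrow ℝ ℝ).symm.trans (EuclideanSpace.equiv (Fin 2) ℝ).symm

theorem iso_zero (x : R2) : iso x 0 = x.1 := rfl

theorem iso_one (x : R2) : iso x 1 = x.2 := rfl

/-- the standard isomorphism of the phase spaces -/
noncomputable def iso2 : PP ≃L[ℝ] Vec 2 × Vec 2 := iso.prodCongr iso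

theorem iso2_apply (z : PP) : iso2 z = (iso z.1, iso z.2) := rfl

/-- integer vectors -/
def zk (k : ℤ × ℤ) : Fin 2 → ℤ := ![k.1, k.2]

theorem iso_zz (k : ℤ × ℤ) : iso (DB.zz k) = zv (zk k) := by
  ext i
  fin_cases i
  · rfl
  · rfl

theorem iso_zz' (l : Fin 2 → ℤ) : iso (DB.zz (l 0, l 1)) = zv l := by
  ext i
  fin_cases i
  · rfl
  · rfl

/-- the Lagrangian on `R2 × R2` -/
noncomputable def Lr (ℓ : Vec 2 × Vec 2 → ℝ) (z : PP) : ℝ := ℓ (iso2 z)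

/-- the flow on `R2 × R2` -/
noncomputable def Fr (ℓ : Vec 2 × Vec 2 → ℝ) (t : ℝ) (z : PP) : PP := iso2.symm (fl ℓ t (iso2 z))

variable {ℓ : Vec 2 × Vec 2 → ℝ}

theorem iso2_fr (ℓ : Vec 2 × Vec 2 → ℝ) (t : ℝ) (z : PP) : iso2 (Fr ℓ t z) = fl ℓ t (iso2 z) :=
  iso2.apply_symm_apply _

theorem lr_fderiv (h : Lag ℓ) (z : PP) :
    fderiv ℝ (Lr ℓ) z = (fderiv ℝ ℓ (iso2 z)).comp (iso2 : PP →L[ℝ] Vec 2 × Vec 2) :=
  ((h.diff (iso2 z)).hasFDerivAt.comp z iso2.hasFDerivAt).fderiv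

/-- the functional `w ↦ ⟪p, iso w⟫` -/
noncomputable def fnl : Vec 2 →L[ℝ] R2 →L[ℝ] ℝ :=
  (((ContinuousLinearMap.compL ℝ R2 (Vec 2) ℝ).flip (iso : R2 →L[ℝ] Vec 2))).comp (innerSL ℝ)

theorem fnl_apply (p : Vec 2) (w : R2) : fnl p w = ⟪p, iso w⟫ := rfl

theorem pm_r (h : Lag ℓ) (z : PP) : DB.pm (Lr ℓ) z = fnl (pm ℓ (iso2 z)) := by
  unfold DB.pm
  rw [lr_fderiv h]
  refine ContinuousLinearMap.ext fun w => ?_
  rw [fnl_apply, h.pm_inner']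
  change fderiv ℝ ℓ (iso2 z) (iso2 (0, w)) = _
  rw [iso2_apply (0, w), map_zero]

theorem lx_r (h : Lag ℓ) (z : PP) : DB.lx (Lr ℓ) z = fnl (gx ℓ (iso2 z)) := by
  unfold DB.lx
  rw [lr_fderiv h]
  refine ContinuousLinearMap.ext fun w => ?_
  rw [fnl_apply, gx_inner]
  change fderiv ℝ ℓ (iso2 z) (iso2 (w, 0)) = _
  rw [iso2_apply (w, 0), map_zero]

theorem en_r (h : Lag ℓ) (z : PP) : DB.en (Lr ℓ) z = en ℓ (iso2 z) := by
  unfold DB.en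
  rw [pm_r h, fnl_apply]
  rfl

/-- the second derivative of a Lagrangian in the velocity -/
theorem hess (h : Lag ℓ) (x v w u : Vec 2) :
    fderiv ℝ (fderiv ℝ ℓ) (x, v) (0, w) (0, u) = ⟪fderiv ℝ (pm ℓ) (x, v) (0, w), u⟫ := by
  have h1 : HasFDerivAt (fderiv ℝ ℓ) (fderiv ℝ (fderiv ℝ ℓ) (x, v)) (x, v) :=
    (((h.sm.fderiv_right (m := ∞) (by simp)).differentiable (by simp)) (x, v)).hasFDerivAt
  have h2 : HasFDerivAt (fun z => fderiv ℝ ℓ z (0, u))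
      ((ContinuousLinearMap.apply ℝ ℝ ((0, u) : Vec 2 × Vec 2)).comp
        (fderiv ℝ (fderiv ℝ ℓ) (x, v))) (x, v) :=
    (ContinuousLinearMap.apply ℝ ℝ ((0, u) : Vec 2 × Vec 2)).hasFDerivAt.comp (x, v) h1
  have h3 : HasFDerivAt (pm ℓ) (fderiv ℝ (pm ℓ) (x, v)) (x, v) :=
    ((h.pm_smooth.differentiable (by simp)) (x, v)).hasFDerivAt
  have h4 : HasFDerivAt (fun z => ⟪pm ℓ z, u⟫)
      ((innerSL ℝ u).comp (fderiv ℝ (pm ℓ) (x, v))) (x, v) := by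
    have h5 := (innerSL ℝ u).hasFDerivAt.comp (x, v) h3
    have e : (fun z => ⟪pm ℓ z, u⟫) = ⇑(innerSL ℝ u) ∘ pm ℓ := by
      funext z
      exact real_inner_comm _ _
    rw [e]
    exact h5
  have e : (fun z => ⟪pm ℓ z, u⟫) = fun z => fderiv ℝ ℓ z (0, u) := by
    funext z
    exact h.pm_inner' z u
  rw [e] at h4
  have h6 := congrArg (fun l : Vec 2 × Vec 2 →L[ℝ] ℝ => l (0, w)) (h2.unique h4)
  have h7 : fderiv ℝ (fderiv ℝ ℓ) (x, v) (0, w) (0, u) =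
      ⟪u, fderiv ℝ (pm ℓ) (x, v) (0, w)⟫ := h6
  rw [h7]
  exact real_inner_comm _ _

theorem lvv_r (h : Lag ℓ) (z : PP) (u w : R2) :
    DB.Lvv (Lr ℓ) z u w = ⟪fderiv ℝ (pm ℓ) (iso2 z) (0, iso u), iso w⟫ := by
  unfold DB.Lvv
  have e : fderiv ℝ (Lr ℓ) = fun z => (fderiv ℝ ℓ (iso2 z)).comp
      (iso2 : PP →L[ℝ] Vec 2 × Vec 2) := funext fun z => lr_fderiv h z
  have h1 : HasFDerivAt (fderiv ℝ ℓ) (fderiv ℝ (fderiv ℝ ℓ) (iso2 z)) (iso2 z) :=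
    (((h.sm.fderiv_right (m := ∞) (by simp)).differentiable (by simp)) (iso2 z)).hasFDerivAt
  have h2 := h1.comp z iso2.hasFDerivAt
  have h3 : HasFDerivAt (fderiv ℝ (Lr ℓ)) (((ContinuousLinearMap.compL ℝ PP (Vec 2 × Vec 2) ℝ).flip
      (iso2 : PP →L[ℝ] Vec 2 × Vec 2)).comp ((fderiv ℝ (fderiv ℝ ℓ) (iso2 z)).comp
        (iso2 : PP →L[ℝ] Vec 2 × Vec 2))) z := by
    rw [e]
    exact ((ContinuousLinearMap.compL ℝ PP (Vec 2 × Vec 2) ℝ).flip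
      (iso2 : PP →L[ℝ] Vec 2 × Vec 2)).hasFDerivAt.comp z h2
  rw [h3.fderiv]
  have e0 : ∀ u : R2, iso2 (0, u) = (0, iso u) := fun u => by
    rw [iso2_apply, map_zero]
  change fderiv ℝ (fderiv ℝ ℓ) (iso2 z) (iso2 (0, u)) (iso2 (0, w)) = _
  rw [e0, e0]
  exact hess h _ _ _ _

theorem dyn_of (h : Lag ℓ) (hp : Pr ℓ) (ha : AnalyticOnNhd ℝ ℓ univ) (hc : Cpl ℓ) :
    DB.Dyn (Lr ℓ) (Fr ℓ) where
  ana := by
    intro z _
    exact AnalyticAt.comp (g := ℓ) (ha _ (mem_univ _))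
      ((iso2 : PP →L[ℝ] Vec 2 × Vec 2).analyticAt z)
  per := by
    intro k z
    change ℓ (iso2 (z + (DB.zz k, 0))) = ℓ (iso2 z)
    have e : iso2 (z + (DB.zz k, 0)) = (iso z.1 + zv (zk k), iso z.2) := by
      rw [iso2_apply]
      change (iso (z.1 + DB.zz k), iso (z.2 + 0)) = _
      rw [map_add, add_zero, iso_zz]
    rw [e]
    exact hp _ _ _
  pos := by
    intro z u hu
    rw [lvv_r h]
    have hu' : iso u ≠ 0 := fun h0 => hu (iso.map_eq_zero_iff.1 h0)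
    have h1 := h.conv (iso z.1) (iso z.2) (iso u) hu'
    rw [← h.pm_dv] at h1
    exact h1
  fana := by
    rintro ⟨t, z⟩ -
    have h1 : AnalyticAt ℝ (fun q : ℝ × PP => ((q.1, iso2 q.2) : ℝ × Vec 2 × Vec 2)) (t, z) := by
      refine analyticAt_fst.prod ?_
      exact AnalyticAt.comp_of_eq (g := iso2)
        ((iso2 : PP →L[ℝ] Vec 2 × Vec 2).analyticAt z) analyticAt_snd rfl
    have h2 : AnalyticAt ℝ (fun q : ℝ × PP => fl ℓ q.1 (iso2 q.2)) (t, z) :=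
      AnalyticAt.comp_of_eq (g := fun p : ℝ × Vec 2 × Vec 2 => fl ℓ p.1 p.2)
        (fl_ana h ha hc (t, iso2 z) (mem_univ _)) h1 rfl
    exact AnalyticAt.comp_of_eq (g := iso2.symm)
      ((iso2.symm : Vec 2 × Vec 2 →L[ℝ] PP).analyticAt _) h2 rfl
  zero := by
    intro z
    change iso2.symm (fl ℓ 0 (iso2 z)) = z
    rw [fl_zero hc, iso2.symm_apply_apply]
  add := by
    intro s t z
    change iso2.symm (fl ℓ (s + t) (iso2 z)) =
      iso2.symm (fl ℓ s (iso2 (iso2.symm (fl ℓ t (iso2 z)))))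
    rw [iso2.apply_symm_apply, fl_add h ha hc]
  vel := by
    intro t z
    have h1 := (fl_sol hc (iso2 z)).dx t
    exact (iso.symm : Vec 2 →L[ℝ] R2).hasFDerivAt.comp_hasDerivAt t h1
  el := by
    intro t z
    have h1 := (fl_sol hc (iso2 z)).dp t
    have h2 := fnl.hasFDerivAt.comp_hasDerivAt t h1
    have e1 : (fun t => DB.pm (Lr ℓ) (Fr ℓ t z)) = fun t => fnl (pm ℓ (fl ℓ t (iso2 z))) := by
      funext t
      rw [pm_r h, iso2_fr]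
    rw [e1, lx_r h, iso2_fr]
    exact h2
  fper := by
    intro t k z
    apply iso2.injective
    rw [iso2_fr]
    have e : iso2 (z + (DB.zz k, 0)) = ((iso2 z).1 + zv (zk k), (iso2 z).2) := by
      rw [iso2_apply, iso2_apply]
      change (iso (z.1 + DB.zz k), iso (z.2 + 0)) = _
      rw [map_add, add_zero, iso_zz]
    rw [e, fl_per h hp ha hc, map_add, iso2_fr]
    refine Prod.ext ?_ ?_
    · change (fl ℓ t (iso2 z)).1 + zv (zk k) = (fl ℓ t (iso2 z)).1 + iso (DB.zz k)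
      rw [iso_zz]
    · change (fl ℓ t (iso2 z)).2 = (fl ℓ t (iso2 z)).2 + iso 0
      rw [map_zero, add_zero]

/-! ## Tonelli Lagrangians -/

variable {L : Torus 2 → Vec 2 → UnitAddCircle → ℝ} {φ : ℝ → Phase 2 → Phase 2}

theorem lft2_pr {n : ℕ} (L : Torus n → Vec n → UnitAddCircle → ℝ) : Pr (lft2 L) :=
  fun x v l => lft2_per x v l

theorem lft2_ana {n : ℕ} {L : Torus n → Vec n → UnitAddCircle → ℝ} (hT : Tonelli L) :
    AnalyticOnNhd ℝ (lft2 L) univ := by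
  intro z _
  have h1 : AnalyticAt ℝ (fun z : Vec n × Vec n => ((z.1, z.2, (0 : ℝ)) : Vec n × Vec n × ℝ)) z :=
    analyticAt_fst.prod (analyticAt_snd.prod analyticAt_const)
  have h2 : AnalyticAt ℝ (fun z : Vec n × Vec n => L (proj z.1) z.2 ((0 : ℝ) : UnitAddCircle)) z :=
    AnalyticAt.comp_of_eq (g := fun q : Vec n × Vec n × ℝ => L (proj q.1) q.2.1 (q.2.2 : UnitAddCircle))
      (hT.ana (z.1, z.2, 0) (mem_univ _)) h1 rfl
  have e : lft2 L = fun z : Vec n × Vec n => L (proj z.1) z.2 ((0 : ℝ) : UnitAddCircle) := by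
    funext z
    change L (proj z.1) z.2 0 = L (proj z.1) z.2 ((0 : ℝ) : UnitAddCircle)
    rw [AddCircle.coe_zero]
  rw [e]
  exact h2

theorem sol_of_el {n : ℕ} {L : Torus n → Vec n → UnitAddCircle → ℝ} (hT : Tonelli L) (hA : Auto L)
    {γ : ℝ → Vec n} (hγ : IsEL L γ) : Sol (lft2 L) γ (deriv γ) :=
  ⟨fun t => (el_mom hT hA hγ t).1, fun t => (el_mom hT hA hγ t).2⟩

theorem cpl_of {n : ℕ} {L : Torus n → Vec n → UnitAddCircle → ℝ} (hT : Tonelli L) (hA : Auto L)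
    {φ : ℝ → Phase n → Phase n} (hφ : IsELFlow L φ) : Cpl (lft2 L) := by
  intro x v
  obtain ⟨γ, hγ, h0, h1, -⟩ := hφ.orbit x v 0
  exact ⟨γ, deriv γ, sol_of_el hT hA hγ, h0, h1⟩

theorem dyn_ton (hT : Tonelli L) (hA : Auto L) (hφ : IsELFlow L φ) :
    DB.Dyn (Lr (lft2 L)) (Fr (lft2 L)) :=
  dyn_of (lag_of hT) (lft2_pr L) (lft2_ana hT) (cpl_of hT hA hφ)

/-- the flow along a solution -/
theorem fr_el (hT : Tonelli L) (hA : Auto L) (hφ : IsELFlow L φ) {γ : ℝ → Vec 2} (hγ : IsEL L γ)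
    (t : ℝ) : Fr (lft2 L) t (iso2.symm (γ 0, deriv γ 0)) = iso2.symm (γ t, deriv γ t) := by
  unfold Fr
  rw [iso2.apply_symm_apply]
  congr 1
  exact ((sol_of_el hT hA hγ).eq_fl (lag_of hT) (lft2_ana hT) (cpl_of hT hA hφ) t).symm

end Pool.Agent.DF
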