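import Pool.Agent.DF.Baire

/-!
# MP_74f563_an, n = 2 autonomous (D2), file DF/Glue: one first integral from the integrals of the bands
(Mathlib only)
-/

set_option autoImplicit false

namespace Pool.Agent.DF

open Set Filter Topology
open scoped ContDiff

variable {P : Type} [NormedAddCommGroup P] [NormedSpace ℝ P]

/-- `f` is a smooth first integral with bounded derivatives which is independent of `e` at `z` -/
def Good (Fl : ℝ → P → P) (e : P → ℝ) {Q : Type} (pr : P → Q) (z : P) : Prop :=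
  ∃ f : P → ℝ, ContDiff ℝ ∞ f ∧ (∀ k, ∃ C, ∀ z, ‖iteratedFDeriv ℝ k f z‖ ≤ C) ∧
    (∀ s z, f (Fl s z) = f z) ∧ (∀ z z', pr z = pr z' → f z = f z') ∧
    ∃ u, fderiv ℝ e z u = 0 ∧ fderiv ℝ f z u ≠ 0

theorem li_pair' {E : Type} [NormedAddCommGroup E] [NormedSpace ℝ E] {a b : E →L[ℝ] ℝ} {u : E}
    (ha : a ≠ 0) (hu : a u = 0) (hb : b u ≠ 0) : LinearIndependent ℝ ![a, b] := by
  rw [LinearIndependent.pair_iff]
  intro s t h
  have h1 := congrArg (fun l : E →L[ℝ] ℝ => l u) h
  have h2 : s * a u + t * b u = 0 := h1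
  rw [hu, mul_zero, zero_add] at h2
  have ht : t = 0 := (mul_eq_zero.1 h2).resolve_right hb
  rw [ht, zero_smul, add_zero] at h
  exact ⟨(smul_eq_zero.1 h).resolve_right ha, ht⟩

theorem glue [FiniteDimensional ℝ P] {Q : Type} {pr : P → Q} {Fl : ℝ → P → P} {e : P → ℝ}
    (he : ContDiff ℝ ∞ e) (hd : Dense {z | fderiv ℝ e z ≠ 0}) (hG : Dense {z | Good Fl e pr z}) :
    ∃ F : P → ℝ, ContDiff ℝ ∞ F ∧ (∀ s z, F (Fl s z) = F z) ∧
      (∀ z z', pr z = pr z' → F z = F z') ∧
      IsOpen {z | LinearIndependent ℝ ![fderiv ℝ e z, fderiv ℝ F z]} ∧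
      Dense {z | LinearIndependent ℝ ![fderiv ℝ e z, fderiv ℝ F z]} := by
  have : CompleteSpace P := FiniteDimensional.complete ℝ P
  have : SecondCountableTopology P := by
    have := FiniteDimensional.proper_real P
    infer_instance
  obtain ⟨t, hts, htc, htd⟩ := hG.exists_countable_dense_subset
  have htne : t.Nonempty := htd.nonempty
  obtain ⟨z, hz⟩ := htc.exists_eq_range htne
  have hz' : ∀ i, Good Fl e pr (z i) := fun i => hts (by rw [hz]; exact mem_range_self i)
  choose f hf hb hi hp u hu1 hu2 using hz'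
  obtain ⟨c, hs, hF, hc⟩ := exists_sum f hf hb z u id hu2
  have hopen : IsOpen {z | LinearIndependent ℝ
      ![fderiv ℝ e z, fderiv ℝ (fun x => ∑' j, c j * f j x) z]} := by
    have h1 : IsOpen {x : Fin 2 → (P →L[ℝ] ℝ) | LinearIndependent ℝ x} :=
      isOpen_setOfPred_linearIndependent
    have h2 : Continuous fun z : P =>
        (![fderiv ℝ e z, fderiv ℝ (fun x => ∑' j, c j * f j x) z] : Fin 2 → (P →L[ℝ] ℝ)) := by
      refine continuous_pi fun i => ?_
      fin_cases i
      · exact he.continuous_fderiv (by simp)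
      · exact hF.continuous_fderiv (by simp)
    exact h1.preimage h2
  refine ⟨fun x => ∑' j, c j * f j x, hF, fun s x => ?_, fun x y hxy => ?_, hopen, ?_⟩
  · exact tsum_congr fun j => by rw [hi j s x]
  · exact tsum_congr fun j => by rw [hp j x y hxy]
  · have h1 : Dense ({z | fderiv ℝ e z ≠ 0} ∩ t) := by
      refine hd.inter_of_isOpen_left htd ?_
      exact (isOpen_compl_singleton).preimage (he.continuous_fderiv (by simp))
    refine h1.mono ?_
    rintro x ⟨hx1, hx2⟩
    rw [hz] at hx2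
    obtain ⟨i, rfl⟩ := hx2
    exact li_pair' hx1 (hu1 i) (hc i)

end Pool.Agent.DF
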