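import Pool.Agent.DF.Ham
import Pool.Agent.DF.Glue

/-!
# MP_74f563_an, n = 2 autonomous (D2), file DF/Fin: from a first integral to complete integrability

`ci_two`: a smooth function `F (x, v)`, `ℤ²`-periodic in `x` and constant along the solutions, such that
the differentials of the energy and of `F` are independent on a dense set, gives
`CompletelyIntegrable`.
-/

set_option autoImplicit false

namespace Pool.Agent.DF

open Set Filter Topology Pool.Agent.MechAlpha Pool.Agent.NOne
open scoped ContDiff RealInnerProductSpace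

variable {n : ℕ} {L : Torus n → Vec n → UnitAddCircle → ℝ}

theorem circ {s t : ℝ} (h : (s : UnitAddCircle) = (t : UnitAddCircle)) : ∃ k : ℤ, s = t + k := by
  have h2 : ((s - t : ℝ) : UnitAddCircle) = 0 := by
    rw [AddCircle.coe_sub, h, sub_self]
  obtain ⟨k, hk⟩ := (AddCircle.coe_eq_zero_iff (p := (1 : ℝ))).1 h2
  refine ⟨k, ?_⟩
  have : (k : ℝ) = s - t := by simpa using hk
  linarith

theorem proj_eq {x y : Vec n} (h : proj x = proj y) : ∃ l : Fin n → ℤ, x = y + zv l := by
  have h1 : ∀ i, ∃ k : ℤ, x i = y i + k := fun i => circ (congrFun h i)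
  choose l hl using h1
  refine ⟨l, ?_⟩
  ext i
  exact hl i

theorem proj_zv (x : Vec n) (l : Fin n → ℤ) : proj (x + zv l) = proj x := by
  funext i
  change (((x i + (l i : ℝ) : ℝ)) : UnitAddCircle) = ((x i : ℝ) : UnitAddCircle)
  rw [AddCircle.coe_add]
  have : ((l i : ℝ) : UnitAddCircle) = 0 :=
    (AddCircle.coe_eq_zero_iff (p := (1 : ℝ))).2 ⟨l i, by simp⟩
  rw [this, add_zero]

theorem proj_onto (z : Torus n) : ∃ x : Vec n, proj x = z := by
  have h : ∀ i, ∃ x : ℝ, (x : UnitAddCircle) = z i := fun i => QuotientAddGroup.mk_surjective _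
  choose x hx using h
  exact ⟨WithLp.toLp 2 x, funext hx⟩

theorem lft2_per (x v : Vec n) (l : Fin n → ℤ) : lft2 L (x + zv l, v) = lft2 L (x, v) := by
  unfold lft2
  rw [proj_zv]

theorem pm_per (x v : Vec n) (l : Fin n → ℤ) : pm (lft2 L) (x + zv l, v) = pm (lft2 L) (x, v) := by
  unfold pm
  congr 1
  funext w
  exact lft2_per x w l

theorem en_per (x v : Vec n) (l : Fin n → ℤ) : en (lft2 L) (x + zv l, v) = en (lft2 L) (x, v) := by
  unfold en
  rw [pm_per, lft2_per]

theorem lai_per (h : Lag (lft2 L)) (x p : Vec n) (l : Fin n → ℤ) :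
    Lai (lft2 L) (x + zv l, p) = ((Lai (lft2 L) (x, p)).1 + zv l, (Lai (lft2 L) (x, p)).2) := by
  apply h.lam_inj
  rw [h.lam_lai]
  unfold Lam
  refine Prod.ext ?_ ?_
  · change x + zv l = (Lai (lft2 L) (x, p)).1 + zv l
    rw [h.lai_fst]
  · change p = pm (lft2 L) ((Lai (lft2 L) (x, p)).1 + zv l, (Lai (lft2 L) (x, p)).2)
    rw [pm_per]
    exact (h.pm_lai (x, p)).symm

/-- the bracket in terms of the differentials -/
theorem bracket_eq {F G : Phase n → ℝ} {f g : Vec n × Vec n → ℝ} {x p : Vec n}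
    {t : UnitAddCircle} (hf : ∀ y q, F (proj y, q, t) = f (y, q))
    (hg : ∀ y q, G (proj y, q, t) = g (y, q)) (df : DifferentiableAt ℝ f (x, p))
    (dg : DifferentiableAt ℝ g (x, p)) :
    bracket F G x p t = ∑ l : Fin n,
      (fderiv ℝ f (x, p) (EuclideanSpace.single l 1, 0) *
          fderiv ℝ g (x, p) (0, EuclideanSpace.single l 1) -
        fderiv ℝ f (x, p) (0, EuclideanSpace.single l 1) *
          fderiv ℝ g (x, p) (EuclideanSpace.single l 1, 0)) := by
  have hx : ∀ {A : Phase n → ℝ} {a : Vec n × Vec n → ℝ}, (∀ y q, A (proj y, q, t) = a (y, q)) →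
      DifferentiableAt ℝ a (x, p) → ∀ w, fderiv ℝ (fun y : Vec n => A (proj y, p, t)) x w =
        fderiv ℝ a (x, p) (w, 0) := by
    intro A a hA ha w
    have e : (fun y : Vec n => A (proj y, p, t)) = fun y => a (y, p) := funext fun y => hA y p
    have h1 : HasFDerivAt (fun y : Vec n => ((y, p) : Vec n × Vec n))
        (ContinuousLinearMap.inl ℝ (Vec n) (Vec n)) x := hasFDerivAt_prodMk_left _ _
    have h2 : HasFDerivAt (fun y : Vec n => a (y, p)) _ x := ha.hasFDerivAt.comp x h1
    rw [e, h2.fderiv]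
    rfl
  have hp : ∀ {A : Phase n → ℝ} {a : Vec n × Vec n → ℝ}, (∀ y q, A (proj y, q, t) = a (y, q)) →
      DifferentiableAt ℝ a (x, p) → ∀ w, fderiv ℝ (fun q : Vec n => A (proj x, q, t)) p w =
        fderiv ℝ a (x, p) (0, w) := by
    intro A a hA ha w
    have e : (fun q : Vec n => A (proj x, q, t)) = fun q => a (x, q) := funext fun q => hA x q
    have h1 : HasFDerivAt (fun q : Vec n => ((x, q) : Vec n × Vec n))
        (ContinuousLinearMap.inr ℝ (Vec n) (Vec n)) p := hasFDerivAt_prodMk_right _ _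
    have h2 : HasFDerivAt (fun q : Vec n => a (x, q)) _ p := ha.hasFDerivAt.comp p h1
    rw [e, h2.fderiv]
    rfl
  unfold bracket
  refine Finset.sum_congr rfl fun l _ => ?_
  rw [hx hf df, hx hg dg, hp hf df, hp hg dg]

/-- a linear map on a vector -/
theorem lin_sum (A : Vec n →L[ℝ] ℝ) (v : Vec n) :
    ∑ l : Fin n, v l * A (EuclideanSpace.single l 1) = A v := by
  have h1 : v = ∑ l : Fin n, v l • (EuclideanSpace.single l (1 : ℝ) : Vec n) := by
    ext i
    simp [Finset.sum_apply, Pi.single_apply]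
  conv_rhs => rw [h1]
  rw [map_sum]
  refine Finset.sum_congr rfl fun l _ => ?_
  rw [map_smul, smul_eq_mul]

/-- the projection to the phase space is open -/
theorem isOpenMap_proj : IsOpenMap (proj (n := n)) := by
  have h1 : IsOpenMap (Pi.map fun (_ : Fin n) (x : ℝ) => (x : UnitAddCircle)) :=
    IsOpenMap.piMap (fun _ => QuotientAddGroup.isOpenMap_coe)
      (Filter.Eventually.of_forall fun _ => QuotientAddGroup.mk_surjective)
  exact h1.comp (EuclideanSpace.equiv (Fin n) ℝ).toHomeomorph.isOpenMap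

theorem continuous_proj : Continuous (proj (n := n)) := by
  refine continuous_pi fun i => ?_
  have h1 : Continuous fun x : Vec n => x i := (EuclideanSpace.proj i : Vec n →L[ℝ] ℝ).continuous
  exact (AddCircle.continuous_mk' 1).comp h1

theorem ci_two {L : Torus 2 → Vec 2 → UnitAddCircle → ℝ} {φ : ℝ → Phase 2 → Phase 2}
    (hT : Tonelli L) (hA : Auto L) (hφ : IsELFlow L φ) {F : Vec 2 × Vec 2 → ℝ}
    (hF : ContDiff ℝ ∞ F) (hper : ∀ x v l, F (x + zv l, v) = F (x, v))
    (hinv : ∀ γ, IsEL L γ → ∀ s t, F (γ s, deriv γ s) = F (γ t, deriv γ t))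
    (hd : Dense {z | LinearIndependent ℝ ![fderiv ℝ (en (lft2 L)) z, fderiv ℝ F z]}) :
    CompletelyIntegrable L φ := by
  classical
  have h := lag_of hT
  choose xr hxr using proj_onto (n := 2)
  let J : Fin 2 → Vec 2 × Vec 2 → ℝ := ![Hm (lft2 L), fun z => F (Lai (lft2 L) z)]
  have hJs : ∀ i, ContDiff ℝ ∞ (J i) := by
    intro i
    fin_cases i
    · exact h.hm_smooth
    · exact hF.comp h.lai_smooth
  have hJp : ∀ i x p l, J i (x + zv l, p) = J i (x, p) := by
    intro i x p l
    fin_cases i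
    · change en (lft2 L) (Lai (lft2 L) (x + zv l, p)) = en (lft2 L) (Lai (lft2 L) (x, p))
      rw [lai_per h, en_per]
    · change F (Lai (lft2 L) (x + zv l, p)) = F (Lai (lft2 L) (x, p))
      rw [lai_per h, hper]
  let G : Fin 2 → Phase 2 → ℝ := fun i z => J i (xr z.1, z.2.1)
  have hG : ∀ i x p t, G i (proj x, p, t) = J i (x, p) := by
    intro i x p t
    obtain ⟨l, hl⟩ := proj_eq (hxr (proj x))
    change J i (xr (proj x), p) = J i (x, p)
    rw [hl, hJp]
  have hdiff : ∀ i z, DifferentiableAt ℝ (J i) z := fun i z =>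
    ((hJs i).differentiable (by simp)) z
  -- the first integrals
  have hmom : ∀ x v t, mom L (proj x, v, t) = pm (lft2 L) (x, v) := by
    intro x v t
    unfold mom pm
    congr 1
    funext w
    exact hA _ _ _ _
  have hJc : ∀ i (γ : ℝ → Vec 2), IsEL L γ → ∀ s t,
      J i (γ s, pm (lft2 L) (γ s, deriv γ s)) = J i (γ t, pm (lft2 L) (γ t, deriv γ t)) := by
    intro i γ hγ s t
    have e : ∀ s, Lai (lft2 L) (γ s, pm (lft2 L) (γ s, deriv γ s)) = (γ s, deriv γ s) := fun s =>
      h.lai_lam (γ s, deriv γ s)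
    fin_cases i
    · change en (lft2 L) (Lai (lft2 L) _) = en (lft2 L) (Lai (lft2 L) _)
      rw [e, e]
      exact en_const hT hA hγ s t
    · change F (Lai (lft2 L) _) = F (Lai (lft2 L) _)
      rw [e, e]
      exact hinv γ hγ s t
  -- the bracket of `J 0` and `J 1`
  have hb : ∀ x p t, bracket (G 0) (G 1) x p t = 0 := by
    intro x p t
    rw [bracket_eq (fun y q => hG 0 y q t) (fun y q => hG 1 y q t) (hdiff 0 _) (hdiff 1 _)]
    have h1 := comm_of hT hA hφ hF hinv (x, p)
    have h2 : fderiv ℝ (J 1) (x, p) ((Lai (lft2 L) (x, p)).2, gx (lft2 L) (Lai (lft2 L) (x, p))) =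
        0 := h1
    have h3 : ∀ l : Fin 2, fderiv ℝ (J 0) (x, p) (EuclideanSpace.single l 1, 0) =
        -(gx (lft2 L) (Lai (lft2 L) (x, p))) l := by
      intro l
      have h4 := h.hm_der (x, p) (EuclideanSpace.single l 1, 0)
      have h5 : ⟪gx (lft2 L) (Lai (lft2 L) (x, p)), (EuclideanSpace.single l (1 : ℝ) : Vec 2)⟫ =
          (gx (lft2 L) (Lai (lft2 L) (x, p))) l := by
        rw [EuclideanSpace.inner_single_right]
        simp
      change fderiv ℝ (Hm (lft2 L)) (x, p) _ = _
      rw [h4, inner_zero_left, zero_sub, h5]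
    have h6 : ∀ l : Fin 2, fderiv ℝ (J 0) (x, p) (0, EuclideanSpace.single l 1) =
        (Lai (lft2 L) (x, p)).2 l := by
      intro l
      have h4 := h.hm_der (x, p) (0, EuclideanSpace.single l 1)
      have h5 : ⟪(EuclideanSpace.single l (1 : ℝ) : Vec 2), (Lai (lft2 L) (x, p)).2⟫ =
          (Lai (lft2 L) (x, p)).2 l := by
        rw [EuclideanSpace.inner_single_left]
        simp
      change fderiv ℝ (Hm (lft2 L)) (x, p) _ = _
      rw [h4, inner_zero_right, sub_zero, h5]
    have h7 : ∀ l : Fin 2, fderiv ℝ (J 0) (x, p) (EuclideanSpace.single l 1, 0) *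
          fderiv ℝ (J 1) (x, p) (0, EuclideanSpace.single l 1) -
        fderiv ℝ (J 0) (x, p) (0, EuclideanSpace.single l 1) *
          fderiv ℝ (J 1) (x, p) (EuclideanSpace.single l 1, 0) =
        -((gx (lft2 L) (Lai (lft2 L) (x, p))) l *
          ((fderiv ℝ (J 1) (x, p)).comp (ContinuousLinearMap.inr ℝ (Vec 2) (Vec 2)))
            (EuclideanSpace.single l 1) +
        (Lai (lft2 L) (x, p)).2 l *
          ((fderiv ℝ (J 1) (x, p)).comp (ContinuousLinearMap.inl ℝ (Vec 2) (Vec 2)))
            (EuclideanSpace.single l 1)) := by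
      intro l
      rw [h3, h6]
      change _ = -(_ * fderiv ℝ (J 1) (x, p) (0, EuclideanSpace.single l 1) +
        _ * fderiv ℝ (J 1) (x, p) (EuclideanSpace.single l 1, 0))
      ring
    rw [Finset.sum_congr rfl fun l _ => h7 l, Finset.sum_neg_distrib, Finset.sum_add_distrib,
      lin_sum, lin_sum]
    change -(fderiv ℝ (J 1) (x, p) (0, gx (lft2 L) (Lai (lft2 L) (x, p))) +
      fderiv ℝ (J 1) (x, p) ((Lai (lft2 L) (x, p)).2, 0)) = 0
    rw [← map_add, Prod.mk_add_mk, zero_add, add_zero, h2, neg_zero]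
  have hanti : ∀ (A B : Phase 2 → ℝ) x p t, bracket A B x p t = -bracket B A x p t := by
    intro A B x p t
    unfold bracket
    rw [← Finset.sum_neg_distrib]
    refine Finset.sum_congr rfl fun l _ => ?_
    ring
  refine ⟨G, fun i => ?_, fun i s z => ?_, fun i j x p t => ?_,
    {z : Phase 2 | ∃ x : Vec 2, proj x = z.1 ∧
      LinearIndependent ℝ fun i : Fin 2 => fderiv ℝ (J i) (x, z.2.1)}, ?_, ?_, ?_⟩
  · have e : (fun q : Vec 2 × Vec 2 × ℝ => G i (proj q.1, q.2.1, (q.2.2 : UnitAddCircle))) =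
        fun q => J i (q.1, q.2.1) := by
      funext q
      exact hG i q.1 q.2.1 q.2.2
    rw [e]
    exact (hJs i).comp (contDiff_fst.prodMk (contDiff_fst.comp contDiff_snd))
  · obtain ⟨ξ, v, τ⟩ := z
    obtain ⟨x, rfl⟩ := proj_onto ξ
    obtain ⟨t, rfl⟩ := QuotientAddGroup.mk_surjective τ
    obtain ⟨γ, hγ, hγt, hγv, hfl⟩ := hφ.orbit x v t
    have h4 : φ s (proj x, v, ((t : ℝ) : UnitAddCircle)) =
      (proj (γ (t + s)), deriv γ (t + s), ((t + s : ℝ) : UnitAddCircle)) := hfl s
    change G i ((φ s (proj x, v, ((t : ℝ) : UnitAddCircle))).1,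
      mom L (φ s (proj x, v, ((t : ℝ) : UnitAddCircle))),
      (φ s (proj x, v, ((t : ℝ) : UnitAddCircle))).2.2) =
      G i (proj x, mom L (proj x, v, ((t : ℝ) : UnitAddCircle)), ((t : ℝ) : UnitAddCircle))
    rw [h4]
    change G i (proj (γ (t + s)),
      mom L (proj (γ (t + s)), deriv γ (t + s), ((t + s : ℝ) : UnitAddCircle)),
      ((t + s : ℝ) : UnitAddCircle)) = _
    rw [hmom, hmom, hG, hG, hJc i γ hγ (t + s) t, hγt, hγv]
  · fin_cases i <;> fin_cases j
    · change bracket (G 0) (G 0) x p t = 0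
      have := hanti (G 0) (G 0) x p t
      linarith
    · exact hb x p t
    · change bracket (G 1) (G 0) x p t = 0
      rw [hanti, hb, neg_zero]
    · change bracket (G 1) (G 1) x p t = 0
      have := hanti (G 1) (G 1) x p t
      linarith
  · -- open
    have hO : IsOpen {y : Vec 2 × Vec 2 | LinearIndependent ℝ fun i : Fin 2 => fderiv ℝ (J i) y} := by
      have h1 : IsOpen {x : Fin 2 → (Vec 2 × Vec 2 →L[ℝ] ℝ) | LinearIndependent ℝ x} :=
        isOpen_setOfPred_linearIndependent
      exact h1.preimage (continuous_pi fun i => (hJs i).continuous_fderiv (by simp))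
    have h2 : IsOpenMap fun q : (Vec 2 × Vec 2) × UnitAddCircle =>
        ((proj q.1.1, q.1.2, q.2) : Phase 2) := by
      have h3 : IsOpenMap (Prod.map (Prod.map (proj (n := 2)) (id : Vec 2 → Vec 2))
          (id : UnitAddCircle → UnitAddCircle)) :=
        (isOpenMap_proj.prodMap IsOpenMap.id).prodMap IsOpenMap.id
      exact (Homeomorph.prodAssoc (Torus 2) (Vec 2) UnitAddCircle).isOpenMap.comp h3
    have h4 := h2 _ (hO.prod (isOpen_univ (X := UnitAddCircle)))
    convert h4 using 1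
    ext z
    constructor
    · rintro ⟨x, hx, hl⟩
      exact ⟨((x, z.2.1), z.2.2), ⟨hl, trivial⟩, Prod.ext hx rfl⟩
    · rintro ⟨⟨⟨x, p⟩, t⟩, ⟨hl, -⟩, rfl⟩
      exact ⟨x, rfl, hl⟩
  · -- dense
    have hD : Dense {y : Vec 2 × Vec 2 | LinearIndependent ℝ fun i : Fin 2 => fderiv ℝ (J i) y} := by
      have h1 : Dense (Lam (lft2 L) '' {z | LinearIndependent ℝ
          ![fderiv ℝ (en (lft2 L)) z, fderiv ℝ F z]}) :=
        h.lam_surj.denseRange.dense_image h.lam_smooth.continuous hd
      refine h1.mono ?_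
      rintro y ⟨z, hz, rfl⟩
      have hK : ∀ i, ((fderiv ℝ (J i) (Lam (lft2 L) z)).comp (fderiv ℝ (Lam (lft2 L)) z)) =
          (![fderiv ℝ (en (lft2 L)) z, fderiv ℝ F z] : Fin 2 → (Vec 2 × Vec 2 →L[ℝ] ℝ)) i := by
        intro i
        have h2 : HasFDerivAt (fun z => J i (Lam (lft2 L) z))
            ((fderiv ℝ (J i) (Lam (lft2 L) z)).comp (fderiv ℝ (Lam (lft2 L)) z)) z :=
          (hdiff i _).hasFDerivAt.comp z
            ((h.lam_smooth.differentiable (by simp)) z).hasFDerivAt
        rw [← h2.fderiv]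
        fin_cases i
        · change fderiv ℝ (fun z => en (lft2 L) (Lai (lft2 L) (Lam (lft2 L) z))) z =
            fderiv ℝ (en (lft2 L)) z
          congr 1
          funext z
          rw [h.lai_lam]
        · change fderiv ℝ (fun z => F (Lai (lft2 L) (Lam (lft2 L) z))) z = fderiv ℝ F z
          congr 1
          funext z
          rw [h.lai_lam]
      have hz' : LinearIndependent ℝ
          (![fderiv ℝ (en (lft2 L)) z, fderiv ℝ F z] : Fin 2 → (Vec 2 × Vec 2 →L[ℝ] ℝ)) := hz
      change LinearIndependent ℝ fun i : Fin 2 => fderiv ℝ (J i) (Lam (lft2 L) z)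
      rw [Fintype.linearIndependent_iff] at hz' ⊢
      intro g hg i
      refine hz' g ?_ i
      rw [← Finset.sum_congr rfl fun i _ => by rw [← hK i]]
      have h5 : ∑ i, g i • ((fderiv ℝ (J i) (Lam (lft2 L) z)).comp (fderiv ℝ (Lam (lft2 L)) z)) =
          (∑ i, g i • fderiv ℝ (J i) (Lam (lft2 L) z)).comp (fderiv ℝ (Lam (lft2 L)) z) := by
        ext u <;> simp
      rw [h5, hg]
      ext u <;> rfl
    have h2 : Continuous fun q : (Vec 2 × Vec 2) × UnitAddCircle =>
        ((proj q.1.1, q.1.2, q.2) : Phase 2) :=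
      ((continuous_proj.comp (continuous_fst.comp continuous_fst)).prodMk
        ((continuous_snd.comp continuous_fst).prodMk continuous_snd))
    have h3 : Function.Surjective fun q : (Vec 2 × Vec 2) × UnitAddCircle =>
        ((proj q.1.1, q.1.2, q.2) : Phase 2) := by
      rintro ⟨ξ, p, t⟩
      obtain ⟨x, rfl⟩ := proj_onto ξ
      exact ⟨((x, p), t), rfl⟩
    have h4 := h3.denseRange.dense_image h2 (hD.prod (dense_univ (X := UnitAddCircle)))
    refine h4.mono ?_
    rintro z ⟨⟨⟨x, p⟩, t⟩, ⟨hl, -⟩, rfl⟩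
    exact ⟨x, rfl, hl⟩
  · -- independence
    rintro x p t ⟨x', hx', hl⟩
    obtain ⟨l, rfl⟩ := proj_eq hx'
    have e : ∀ i, fderiv ℝ (fun y : Vec 2 × Vec 2 => G i (proj y.1, y.2, t)) (x, p) =
        fderiv ℝ (J i) (x + zv l, p) := by
      intro i
      have e1 : (fun y : Vec 2 × Vec 2 => G i (proj y.1, y.2, t)) = J i :=
        funext fun y => hG i y.1 y.2 t
      rw [e1]
      have e2 : J i = fun y => J i (y + (zv l, 0)) := by
        funext y
        rw [← hJp i y.1 y.2 l]
        congr 1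
        ext <;> simp
      have e3 : fderiv ℝ (fun y => J i (y + (zv l, 0))) (x, p) =
          fderiv ℝ (J i) ((x, p) + (zv l, 0)) := fderiv_comp_add_right _
      conv_lhs => rw [e2]
      rw [e3]
      congr 1
      ext <;> simp
    change LinearIndependent ℝ fun i : Fin 2 =>
      fderiv ℝ (fun y : Vec 2 × Vec 2 => G i (proj y.1, y.2, t)) (x, p)
    rw [funext e]
    exact hl

end Pool.Agent.DF
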