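import Pool.Agent.DF.Leg

/-!
# MP_74f563_an, n = 2 autonomous (D2), file DF/Ham: Hamilton's equations (any n, autonomous)

`en ℓ` is the energy as a function of `(x, v)`, `Hm ℓ = en ℓ ∘ Lai ℓ` the Hamiltonian.
-/

set_option autoImplicit false

namespace Pool.Agent.DF

open Set Filter Topology Pool.Agent.MechAlpha Pool.Agent.NOne
open scoped ContDiff RealInnerProductSpace

variable {n : ℕ} {ℓ : Vec n × Vec n → ℝ}

/-- the energy -/
noncomputable def en (ℓ : Vec n × Vec n → ℝ) (z : Vec n × Vec n) : ℝ := ⟪pm ℓ z, z.2⟫ - ℓ z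

/-- the Hamiltonian -/
noncomputable def Hm (ℓ : Vec n × Vec n → ℝ) (z : Vec n × Vec n) : ℝ := en ℓ (Lai ℓ z)

/-- the vector `∂ℓ/∂x` -/
noncomputable def gx (ℓ : Vec n × Vec n → ℝ) (z : Vec n × Vec n) : Vec n :=
  (InnerProductSpace.toDual ℝ (Vec n)).symm
    ((fderiv ℝ ℓ z).comp (ContinuousLinearMap.inl ℝ (Vec n) (Vec n)))

theorem gx_inner (ℓ : Vec n × Vec n → ℝ) (z : Vec n × Vec n) (ξ : Vec n) :
    ⟪gx ℓ z, ξ⟫ = fderiv ℝ ℓ z (ξ, 0) := by
  unfold gx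
  rw [InnerProductSpace.toDual_symm_apply]
  rfl

theorem Lag.en_smooth (h : Lag ℓ) : ContDiff ℝ ∞ (en ℓ) :=
  (h.pm_smooth.inner ℝ contDiff_snd).sub h.sm

theorem Lag.hm_smooth (h : Lag ℓ) : ContDiff ℝ ∞ (Hm ℓ) := h.en_smooth.comp h.lai_smooth

theorem Lag.pm_inner' (h : Lag ℓ) (z : Vec n × Vec n) (w : Vec n) :
    ⟪pm ℓ z, w⟫ = fderiv ℝ ℓ z (0, w) := by
  obtain ⟨x, v⟩ := z
  rw [pm_inner, h.part]
  rfl

theorem Lag.en_der (h : Lag ℓ) (z u : Vec n × Vec n) :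
    fderiv ℝ (en ℓ) z u = ⟪fderiv ℝ (pm ℓ) z u, z.2⟫ - ⟪gx ℓ z, u.1⟫ := by
  have h1 : HasFDerivAt (pm ℓ) (fderiv ℝ (pm ℓ) z) z :=
    ((h.pm_smooth.differentiable (by simp)) z).hasFDerivAt
  have h2 : HasFDerivAt (fun z : Vec n × Vec n => z.2)
      (ContinuousLinearMap.snd ℝ (Vec n) (Vec n)) z := hasFDerivAt_snd
  have h3 := (h1.inner ℝ h2).sub (h.diff z).hasFDerivAt
  have h4 : HasFDerivAt (en ℓ) _ z := h3
  rw [h4.fderiv]
  have h5 : ((fderivInnerCLM ℝ (pm ℓ z, z.2)).comp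
      ((fderiv ℝ (pm ℓ) z).prod (ContinuousLinearMap.snd ℝ (Vec n) (Vec n))) - fderiv ℝ ℓ z) u =
      ⟪pm ℓ z, u.2⟫ + ⟪fderiv ℝ (pm ℓ) z u, z.2⟫ - fderiv ℝ ℓ z u := rfl
  rw [h5, h.pm_inner', gx_inner]
  have h6 : fderiv ℝ ℓ z u = fderiv ℝ ℓ z (0, u.2) + fderiv ℝ ℓ z (u.1, 0) := by
    rw [← map_add]
    congr 1
    ext <;> simp
  rw [h6]
  ring

/-- the derivative of the inverse Legendre transformation -/
theorem Lag.lai_dd (h : Lag ℓ) (z u : Vec n × Vec n) : (fderiv ℝ (Lai ℓ) z u).1 = u.1 ∧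
    fderiv ℝ (pm ℓ) (Lai ℓ z) (fderiv ℝ (Lai ℓ) z u) = u.2 := by
  have h1 : HasFDerivAt (Lai ℓ) (fderiv ℝ (Lai ℓ) z) z :=
    ((h.lai_smooth.differentiable (by simp)) z).hasFDerivAt
  have h2 : HasFDerivAt (pm ℓ) (fderiv ℝ (pm ℓ) (Lai ℓ z)) (Lai ℓ z) :=
    ((h.pm_smooth.differentiable (by simp)) (Lai ℓ z)).hasFDerivAt
  constructor
  · have h3 : HasFDerivAt (fun z => (Lai ℓ z).1) _ z :=
      (hasFDerivAt_fst (𝕜 := ℝ) (p := Lai ℓ z)).comp z h1
    have e : (fun z => (Lai ℓ z).1) = fun z => z.1 := funext fun z => h.lai_fst z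
    rw [e] at h3
    have h4 := congrArg (fun l : Vec n × Vec n →L[ℝ] Vec n => l u) (h3.unique hasFDerivAt_fst)
    exact h4
  · have h3 : HasFDerivAt (fun z => pm ℓ (Lai ℓ z)) _ z := h2.comp z h1
    have e : (fun z => pm ℓ (Lai ℓ z)) = fun z => z.2 := funext fun z => h.pm_lai z
    rw [e] at h3
    have h4 := congrArg (fun l : Vec n × Vec n →L[ℝ] Vec n => l u) (h3.unique hasFDerivAt_snd)
    exact h4

/-- Hamilton's equations. -/
theorem Lag.hm_der (h : Lag ℓ) (z u : Vec n × Vec n) :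
    fderiv ℝ (Hm ℓ) z u = ⟪u.2, (Lai ℓ z).2⟫ - ⟪gx ℓ (Lai ℓ z), u.1⟫ := by
  have h1 : HasFDerivAt (Lai ℓ) (fderiv ℝ (Lai ℓ) z) z :=
    ((h.lai_smooth.differentiable (by simp)) z).hasFDerivAt
  have h2 : HasFDerivAt (en ℓ) (fderiv ℝ (en ℓ) (Lai ℓ z)) (Lai ℓ z) :=
    ((h.en_smooth.differentiable (by simp)) (Lai ℓ z)).hasFDerivAt
  have h3 : HasFDerivAt (Hm ℓ) _ z := h2.comp z h1
  rw [h3.fderiv]
  change fderiv ℝ (en ℓ) (Lai ℓ z) (fderiv ℝ (Lai ℓ) z u) = _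
  obtain ⟨h4, h5⟩ := h.lai_dd z u
  rw [h.en_der, h4, h5]

variable {L : Torus n → Vec n → UnitAddCircle → ℝ}

/-- the lift of an autonomous Lagrangian -/
noncomputable def lft2 (L : Torus n → Vec n → UnitAddCircle → ℝ) (z : Vec n × Vec n) : ℝ :=
  L (proj z.1) z.2 0

/-- `L` does not depend on the time -/
def Auto (L : Torus n → Vec n → UnitAddCircle → ℝ) : Prop := ∀ x v s t, L x v s = L x v t

theorem lag_of (hT : Tonelli L) : Lag (lft2 L) where
  sm := by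
    have h1 : ContDiff ℝ ∞ (fun q : Vec n × Vec n × ℝ =>
        L (proj q.1) q.2.1 (q.2.2 : UnitAddCircle)) :=
      contDiffOn_univ.1 (hT.ana.contDiffOn uniqueDiffOn_univ)
    have h2 : ContDiff ℝ ∞ fun z : Vec n × Vec n => ((z.1, z.2, (0 : ℝ)) : Vec n × Vec n × ℝ) :=
      contDiff_fst.prodMk (contDiff_snd.prodMk contDiff_const)
    have h3 := h1.comp h2
    have e : lft2 L = (fun q : Vec n × Vec n × ℝ =>
        L (proj q.1) q.2.1 (q.2.2 : UnitAddCircle)) ∘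
        fun z : Vec n × Vec n => ((z.1, z.2, (0 : ℝ)) : Vec n × Vec n × ℝ) := by
      funext z
      change L (proj z.1) z.2 0 = L (proj z.1) z.2 ((0 : ℝ) : UnitAddCircle)
      rw [AddCircle.coe_zero]
    rw [e]
    exact h3
  conv x v w hw := by
    have h1 := hT.conv x v w 0 hw
    rw [AddCircle.coe_zero] at h1
    exact h1
  sup B := by
    obtain ⟨R, hR⟩ := hT.sup B
    exact ⟨R, fun x v hv => hR (proj x) v 0 hv⟩

/-- the momentum along a solution -/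
theorem el_mom (hT : Tonelli L) (hA : Auto L) {γ : ℝ → Vec n} (hγ : IsEL L γ) (t : ℝ) :
    HasDerivAt γ (deriv γ t) t ∧
      HasDerivAt (fun s => pm (lft2 L) (γ s, deriv γ s)) (gx (lft2 L) (γ t, deriv γ t)) t := by
  refine ⟨(hγ.1 t).hasDerivAt, ?_⟩
  have h := lag_of hT
  have h1 := hγ.2 t
  have e1 : (fun s : ℝ => fderiv ℝ (fun v : Vec n => L (proj (γ s)) v (s : UnitAddCircle))
      (deriv γ s)) = fun s : ℝ => fderiv ℝ (fun v : Vec n => lft2 L (γ s, v)) (deriv γ s) := by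
    funext s
    congr 1
    funext v
    exact hA _ _ _ _
  have e2 : fderiv ℝ (fun x : Vec n => L (proj x) (deriv γ t) (t : UnitAddCircle)) (γ t) =
      (fderiv ℝ (lft2 L) (γ t, deriv γ t)).comp (ContinuousLinearMap.inl ℝ (Vec n) (Vec n)) := by
    have h2 : (fun x : Vec n => L (proj x) (deriv γ t) (t : UnitAddCircle)) =
        fun x : Vec n => lft2 L (x, deriv γ t) := by
      funext x
      exact hA _ _ _ _
    rw [h2]
    have h3 : HasFDerivAt (fun x : Vec n => ((x, deriv γ t) : Vec n × Vec n))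
        (ContinuousLinearMap.inl ℝ (Vec n) (Vec n)) (γ t) := hasFDerivAt_prodMk_left _ _
    exact ((h.diff (γ t, deriv γ t)).hasFDerivAt.comp (γ t) h3).fderiv
  rw [e1, e2] at h1
  exact ((InnerProductSpace.toDual ℝ (Vec n)).symm.toContinuousLinearEquiv.toContinuousLinearMap
    ).hasFDerivAt.comp_hasDerivAt t h1

/-- A function which is constant along the solutions Poisson-commutes with the Hamiltonian. -/
theorem comm_of (hT : Tonelli L) (hA : Auto L) {φ : ℝ → Phase n → Phase n} (hφ : IsELFlow L φ)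
    {F : Vec n × Vec n → ℝ} (hF : ContDiff ℝ ∞ F)
    (hinv : ∀ γ, IsEL L γ → ∀ s t, F (γ s, deriv γ s) = F (γ t, deriv γ t)) (z : Vec n × Vec n) :
    fderiv ℝ (fun y => F (Lai (lft2 L) y)) z
      ((Lai (lft2 L) z).2, gx (lft2 L) (Lai (lft2 L) z)) = 0 := by
  have h := lag_of hT
  obtain ⟨γ, hγ, h0, h1, -⟩ := hφ.orbit (Lai (lft2 L) z).1 (Lai (lft2 L) z).2 0
  have e0 : (γ 0, deriv γ 0) = Lai (lft2 L) z := Prod.ext h0 h1
  have hG : ContDiff ℝ ∞ fun y => F (Lai (lft2 L) y) := hF.comp h.lai_smooth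
  obtain ⟨d1, d2⟩ := el_mom hT hA hγ 0
  rw [e0] at d2
  have hc : HasDerivAt (fun s => (γ s, pm (lft2 L) (γ s, deriv γ s)))
      (deriv γ 0, gx (lft2 L) (Lai (lft2 L) z)) 0 := d1.prodMk d2
  have hz : (γ 0, pm (lft2 L) (γ 0, deriv γ 0)) = z := by
    rw [e0, h.pm_lai]
    refine Prod.ext ?_ rfl
    change γ 0 = z.1
    rw [h0, h.lai_fst]
  have hd : HasFDerivAt (fun y => F (Lai (lft2 L) y))
      (fderiv ℝ (fun y => F (Lai (lft2 L) y)) z) (γ 0, pm (lft2 L) (γ 0, deriv γ 0)) := by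
    rw [hz]
    exact ((hG.differentiable (by simp)) z).hasFDerivAt
  have h2 := hd.comp_hasDerivAt (0 : ℝ) hc
  have e : (fun s => F (Lai (lft2 L) (γ s, pm (lft2 L) (γ s, deriv γ s)))) =
      fun _ => F (γ 0, deriv γ 0) := by
    funext s
    have h3 : Lai (lft2 L) (γ s, pm (lft2 L) (γ s, deriv γ s)) = (γ s, deriv γ s) :=
      h.lai_lam (γ s, deriv γ s)
    rw [h3]
    exact hinv γ hγ s 0
  have h4 : HasDerivAt (fun s => F (Lai (lft2 L) (γ s, pm (lft2 L) (γ s, deriv γ s)))) _ 0 := h2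
  rw [e] at h4
  have h5 := h4.unique (hasDerivAt_const 0 (F (γ 0, deriv γ 0)))
  rw [h1] at h5
  exact h5

/-- The energy is constant along the solutions. -/
theorem en_const (hT : Tonelli L) (hA : Auto L) {γ : ℝ → Vec n} (hγ : IsEL L γ) (s t : ℝ) :
    en (lft2 L) (γ s, deriv γ s) = en (lft2 L) (γ t, deriv γ t) := by
  have h := lag_of hT
  have hH : ∀ s, en (lft2 L) (γ s, deriv γ s) =
      Hm (lft2 L) (γ s, pm (lft2 L) (γ s, deriv γ s)) := by
    intro s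
    have h3 : Lai (lft2 L) (γ s, pm (lft2 L) (γ s, deriv γ s)) = (γ s, deriv γ s) :=
      h.lai_lam (γ s, deriv γ s)
    unfold Hm
    rw [h3]
  have hd : ∀ s, HasDerivAt (fun s => en (lft2 L) (γ s, deriv γ s)) 0 s := by
    intro s
    obtain ⟨d1, d2⟩ := el_mom hT hA hγ s
    have h1 := ((h.hm_smooth.differentiable (by simp))
      (γ s, pm (lft2 L) (γ s, deriv γ s))).hasFDerivAt.comp_hasDerivAt s (d1.prodMk d2)
    have h3 : Lai (lft2 L) (γ s, pm (lft2 L) (γ s, deriv γ s)) = (γ s, deriv γ s) :=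
      h.lai_lam (γ s, deriv γ s)
    rw [h.hm_der, h3] at h1
    have e1 : ⟪gx (lft2 L) (γ s, deriv γ s), deriv γ s⟫ -
        ⟪gx (lft2 L) (γ s, deriv γ s), deriv γ s⟫ = 0 := sub_self _
    have h4 : HasDerivAt (fun s => Hm (lft2 L) (γ s, pm (lft2 L) (γ s, deriv γ s)))
        (⟪gx (lft2 L) (γ s, deriv γ s), deriv γ s⟫ -
          ⟪gx (lft2 L) (γ s, deriv γ s), deriv γ s⟫) s := h1
    rw [e1] at h4
    have e : (fun s => en (lft2 L) (γ s, deriv γ s)) =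
        fun s => Hm (lft2 L) (γ s, pm (lft2 L) (γ s, deriv γ s)) := funext hH
    rw [e]
    exact h4
  exact is_const_of_deriv_eq_zero (fun s => (hd s).differentiableAt) (fun s => (hd s).deriv) s t

end Pool.Agent.DF
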