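import Pool.Agent.NOne.BrDefs

/-!
# MP_74f563_an, n = 2 autonomous (D2), file DF/Leg: the Legendre transformation (any n)

`Lag ℓ`: smooth, `∂²ℓ/∂v²` positive definite, superlinear.  `pm ℓ (x, v)` is the momentum,
`Lam ℓ (x, v) = (x, pm)`, `Lai ℓ` its inverse, which is smooth.
-/

set_option autoImplicit false

namespace Pool.Agent.DF

open Set Filter Topology Pool.Agent.MechAlpha
open scoped ContDiff RealInnerProductSpace

/-- The inverse of a smooth bijection with injective derivatives is smooth. -/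
theorem inv_smooth {E : Type} [NormedAddCommGroup E] [NormedSpace ℝ E] [FiniteDimensional ℝ E]
    {Λ : E → E} (hΛ : ContDiff ℝ ∞ Λ) (hb : Function.Bijective Λ)
    (hd : ∀ z, Function.Injective (fderiv ℝ Λ z)) : ContDiff ℝ ∞ (Function.invFun Λ) := by
  have : CompleteSpace E := FiniteDimensional.complete ℝ E
  have hn : (∞ : WithTop ℕ∞) ≠ 0 := by simp
  rw [contDiff_iff_contDiffAt]
  intro y
  obtain ⟨z, rfl⟩ := hb.2 y
  obtain ⟨L, hL⟩ : ∃ L : E ≃L[ℝ] E, (L : E →L[ℝ] E) = fderiv ℝ Λ z := by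
    have hs : Function.Surjective (fderiv ℝ Λ z) :=
      LinearMap.surjective_of_injective (f := (fderiv ℝ Λ z : E →ₗ[ℝ] E)) (hd z)
    refine ⟨ContinuousLinearEquiv.ofBijective _ (LinearMap.ker_eq_bot.2 (hd z))
      (LinearMap.range_eq_top.2 hs), ?_⟩
    exact ContinuousLinearEquiv.coe_ofBijective _ _ _
  have hz : ContDiffAt ℝ ∞ Λ z := hΛ.contDiffAt
  have hD : HasFDerivAt Λ (L : E →L[ℝ] E) z := by
    rw [hL]
    exact (hz.differentiableAt hn).hasFDerivAt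
  have hst := hz.hasStrictFDerivAt' hD hn
  have h1 : ContDiffAt ℝ ∞ (hz.localInverse hD hn) (Λ z) := hz.to_localInverse hD hn
  have h3 : ∀ᶠ y in 𝓝 (Λ z), Λ (hz.localInverse hD hn y) = y := hst.eventually_right_inverse
  refine h1.congr_of_eventuallyEq ?_
  filter_upwards [h3] with y hy
  have h4 := Function.leftInverse_invFun hb.1 (hz.localInverse hD hn y)
  rw [hy] at h4
  exact h4

variable {n : ℕ}

/-- The hypotheses on the (autonomous) Lagrangian on `ℝⁿ × ℝⁿ`. -/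
structure Lag (ℓ : Vec n × Vec n → ℝ) : Prop where
  sm : ContDiff ℝ ∞ ℓ
  conv : ∀ x v w : Vec n, w ≠ 0 → 0 < fderiv ℝ (fderiv ℝ fun u : Vec n => ℓ (x, u)) v w w
  sup : ∀ B : ℝ, ∃ R : ℝ, ∀ x v : Vec n, R ≤ ‖v‖ → B * ‖v‖ ≤ ℓ (x, v)

/-- the momentum -/
noncomputable def pm (ℓ : Vec n × Vec n → ℝ) (z : Vec n × Vec n) : Vec n :=
  gradient (fun w : Vec n => ℓ (z.1, w)) z.2

/-- the Legendre transformation -/
noncomputable def Lam (ℓ : Vec n × Vec n → ℝ) (z : Vec n × Vec n) : Vec n × Vec n := (z.1, pm ℓ z)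

/-- its inverse -/
noncomputable def Lai (ℓ : Vec n × Vec n → ℝ) : Vec n × Vec n → Vec n × Vec n :=
  Function.invFun (Lam ℓ)

variable {ℓ : Vec n × Vec n → ℝ}

theorem Lag.diff (h : Lag ℓ) (z : Vec n × Vec n) : DifferentiableAt ℝ ℓ z :=
  (h.sm.differentiable (by simp)) z

/-- the partial derivative in `v` -/
theorem Lag.part (h : Lag ℓ) (x v : Vec n) : fderiv ℝ (fun w : Vec n => ℓ (x, w)) v =
    (fderiv ℝ ℓ (x, v)).comp (ContinuousLinearMap.inr ℝ (Vec n) (Vec n)) :=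
  ((h.diff (x, v)).hasFDerivAt.comp v (hasFDerivAt_prodMk_right x v)).fderiv

theorem pm_inner (ℓ : Vec n × Vec n → ℝ) (x v w : Vec n) :
    ⟪pm ℓ (x, v), w⟫ = fderiv ℝ (fun w : Vec n => ℓ (x, w)) v w := by
  unfold pm gradient
  exact InnerProductSpace.toDual_symm_apply

theorem Lag.pm_smooth (h : Lag ℓ) : ContDiff ℝ ∞ (pm ℓ) := by
  have e : pm ℓ = fun z => (InnerProductSpace.toDual ℝ (Vec n)).symm
      ((fderiv ℝ ℓ z).comp (ContinuousLinearMap.inr ℝ (Vec n) (Vec n))) := by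
    funext z
    obtain ⟨x, v⟩ := z
    change (InnerProductSpace.toDual ℝ (Vec n)).symm (fderiv ℝ (fun w : Vec n => ℓ (x, w)) v) = _
    rw [h.part]
  rw [e]
  have h1 : ContDiff ℝ ∞ (fderiv ℝ ℓ) := h.sm.fderiv_right (by simp)
  have h2 : ContDiff ℝ ∞ fun z => (fderiv ℝ ℓ z).comp
      (ContinuousLinearMap.inr ℝ (Vec n) (Vec n)) := h1.clm_comp contDiff_const
  exact ((InnerProductSpace.toDual ℝ (Vec n)).symm.toContinuousLinearEquiv.contDiff).comp h2

theorem Lag.lam_smooth (h : Lag ℓ) : ContDiff ℝ ∞ (Lam ℓ) := contDiff_fst.prodMk h.pm_smooth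

/-- the derivative of the momentum in `v` -/
theorem Lag.pm_dv (h : Lag ℓ) (x v w u : Vec n) :
    ⟪fderiv ℝ (pm ℓ) (x, v) (0, w), u⟫ =
      fderiv ℝ (fderiv ℝ fun u : Vec n => ℓ (x, u)) v w u := by
  have hx : ContDiff ℝ ∞ fun u : Vec n => ℓ (x, u) :=
    h.sm.comp (contDiff_const.prodMk contDiff_id)
  have h1 : HasFDerivAt (fun v : Vec n => pm ℓ (x, v))
      ((fderiv ℝ (pm ℓ) (x, v)).comp (ContinuousLinearMap.inr ℝ (Vec n) (Vec n))) v :=
    ((h.pm_smooth.differentiable (by simp)) (x, v)).hasFDerivAt.comp v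
      (hasFDerivAt_prodMk_right x v)
  have h2 : HasFDerivAt (fun v : Vec n => ⟪pm ℓ (x, v), u⟫)
      ((innerSL ℝ u).comp ((fderiv ℝ (pm ℓ) (x, v)).comp
        (ContinuousLinearMap.inr ℝ (Vec n) (Vec n)))) v := by
    have h3 := (innerSL ℝ u).hasFDerivAt.comp v h1
    have e : (fun v : Vec n => ⟪pm ℓ (x, v), u⟫) = ⇑(innerSL ℝ u) ∘ fun v : Vec n => pm ℓ (x, v) := by
      funext v
      exact real_inner_comm _ _
    rw [e]
    exact h3
  have h4 : HasFDerivAt (fun v : Vec n => fderiv ℝ (fun w : Vec n => ℓ (x, w)) v u)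
      ((ContinuousLinearMap.apply ℝ ℝ u).comp
        (fderiv ℝ (fderiv ℝ fun u : Vec n => ℓ (x, u)) v)) v := by
    have h5 : DifferentiableAt ℝ (fderiv ℝ fun u : Vec n => ℓ (x, u)) v :=
      ((hx.fderiv_right (m := ∞) (by simp)).differentiable (by simp)) v
    exact (ContinuousLinearMap.apply ℝ ℝ u).hasFDerivAt.comp v h5.hasFDerivAt
  have e : (fun v : Vec n => ⟪pm ℓ (x, v), u⟫) =
      fun v : Vec n => fderiv ℝ (fun w : Vec n => ℓ (x, w)) v u := by
    funext v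
    exact pm_inner ℓ x v u
  rw [e] at h2
  have h6 := congrArg (fun l : Vec n →L[ℝ] ℝ => l w) (h2.unique h4)
  have h7 : ⟪u, fderiv ℝ (pm ℓ) (x, v) (0, w)⟫ =
      fderiv ℝ (fderiv ℝ fun u : Vec n => ℓ (x, u)) v w u := h6
  rw [← h7]
  exact real_inner_comm _ _

theorem Lag.lam_inj (h : Lag ℓ) : Function.Injective (Lam ℓ) := by
  rintro ⟨x, v⟩ ⟨y, v'⟩ heq
  obtain ⟨rfl, hp⟩ : x = y ∧ pm ℓ (x, v) = pm ℓ (y, v') :=
    ⟨congrArg Prod.fst heq, congrArg Prod.snd heq⟩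
  by_contra hne
  have hw : v' - v ≠ 0 := fun h0 => hne (by rw [sub_eq_zero.1 h0])
  -- the momentum along the segment
  have hd : ∀ s : ℝ, HasDerivAt (fun s : ℝ => ⟪pm ℓ (x, v + s • (v' - v)), v' - v⟫)
      (fderiv ℝ (fderiv ℝ fun u : Vec n => ℓ (x, u)) (v + s • (v' - v)) (v' - v) (v' - v)) s := by
    intro s
    have h1 : HasDerivAt (fun s : ℝ => ((x, v + s • (v' - v)) : Vec n × Vec n)) (0, v' - v) s := by
      have h2 : HasDerivAt (fun s : ℝ => v + s • (v' - v)) (v' - v) s := by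
        have := ((hasDerivAt_id s).smul_const (v' - v)).const_add v
        simpa using this
      exact (hasDerivAt_const s x).prodMk h2
    have h2 := ((h.pm_smooth.differentiable (by simp)) (x, v + s • (v' - v))).hasFDerivAt.comp_hasDerivAt
      s h1
    have h3 : HasDerivAt (fun s : ℝ => ⟪pm ℓ (x, v + s • (v' - v)), v' - v⟫) _ s :=
      h2.inner ℝ (hasDerivAt_const s (v' - v))
    rw [inner_zero_right, zero_add, h.pm_dv] at h3
    exact h3
  have hmono : StrictMono fun s : ℝ => ⟪pm ℓ (x, v + s • (v' - v)), v' - v⟫ :=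
    strictMono_of_deriv_pos fun s => by
      rw [(hd s).deriv]
      exact h.conv _ _ _ hw
  have h1 := hmono (zero_lt_one (α := ℝ))
  simp only [zero_smul, add_zero, one_smul, add_sub_cancel] at h1
  rw [hp] at h1
  exact lt_irrefl _ h1

theorem Lag.lam_surj (h : Lag ℓ) : Function.Surjective (Lam ℓ) := by
  rintro ⟨x, p⟩
  obtain ⟨R, hR⟩ := h.sup (‖p‖ + 1)
  let ψ : Vec n → ℝ := fun v => ℓ (x, v) - ⟪p, v⟫
  have hc : Continuous ψ := by
    have h1 : Continuous fun v : Vec n => ℓ (x, v) :=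
      h.sm.continuous.comp (by fun_prop)
    exact h1.sub (continuous_const.inner continuous_id)
  obtain ⟨v, hv⟩ := hc.exists_forall_le_of_isBounded 0 (by
    have h1 : {v | ψ v ≤ ψ 0} ⊆ Metric.closedBall 0 (max R (ψ 0)) := by
      intro v hv
      rw [mem_closedBall_zero_iff]
      by_contra hc
      push Not at hc
      have h2 := hR x v ((le_max_left _ _).trans hc.le)
      have h3 := (le_max_right R (ψ 0)).trans_lt hc
      have h4 := real_inner_le_norm p v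
      have h5 : (‖p‖ + 1) * ‖v‖ = ‖p‖ * ‖v‖ + ‖v‖ := by ring
      have h6 : ℓ (x, v) - ⟪p, v⟫ ≤ ψ 0 := hv
      linarith
    exact Metric.isBounded_closedBall.subset h1)
  refine ⟨(x, v), ?_⟩
  change (x, pm ℓ (x, v)) = (x, p)
  congr 1
  refine ext_inner_right ℝ fun w => ?_
  rw [pm_inner]
  have hx : DifferentiableAt ℝ (fun u : Vec n => ℓ (x, u)) v :=
    ((h.sm.comp (contDiff_const.prodMk contDiff_id)).differentiable (by simp)) v
  have h1 : HasFDerivAt ψ (fderiv ℝ (fun u : Vec n => ℓ (x, u)) v - innerSL ℝ p) v :=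
    hx.hasFDerivAt.sub (innerSL ℝ p).hasFDerivAt
  have h2 : IsLocalMin ψ v := Filter.Eventually.of_forall fun w => hv w
  have h3 := h2.hasFDerivAt_eq_zero h1
  have h4 := congrArg (fun l : Vec n →L[ℝ] ℝ => l w) h3
  have h5 : fderiv ℝ (fun u : Vec n => ℓ (x, u)) v w - ⟪p, w⟫ = 0 := h4
  linarith

theorem Lag.lam_der (h : Lag ℓ) (z : Vec n × Vec n) : Function.Injective (fderiv ℝ (Lam ℓ) z) := by
  obtain ⟨x, v⟩ := z
  have h1 : fderiv ℝ (Lam ℓ) (x, v) = (ContinuousLinearMap.fst ℝ (Vec n) (Vec n)).prod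
      (fderiv ℝ (pm ℓ) (x, v)) :=
    (hasFDerivAt_fst.prodMk ((h.pm_smooth.differentiable (by simp)) (x, v)).hasFDerivAt).fderiv
  rw [injective_iff_map_eq_zero]
  rintro ⟨ξ, w⟩ h0
  rw [h1] at h0
  have h2 : ξ = 0 := congrArg Prod.fst h0
  have h3 : fderiv ℝ (pm ℓ) (x, v) (ξ, w) = 0 := congrArg Prod.snd h0
  subst h2
  by_contra hne
  have hw : w ≠ 0 := fun h4 => hne (by rw [h4]; rfl)
  have h4 := h.conv x v w hw
  rw [← h.pm_dv, h3, inner_zero_left] at h4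
  exact lt_irrefl _ h4

theorem Lag.lai_smooth (h : Lag ℓ) : ContDiff ℝ ∞ (Lai ℓ) :=
  inv_smooth h.lam_smooth ⟨h.lam_inj, h.lam_surj⟩ h.lam_der

theorem Lag.lai_lam (h : Lag ℓ) (z : Vec n × Vec n) : Lai ℓ (Lam ℓ z) = z :=
  Function.leftInverse_invFun h.lam_inj z

theorem Lag.lam_lai (h : Lag ℓ) (z : Vec n × Vec n) : Lam ℓ (Lai ℓ z) = z :=
  Function.rightInverse_invFun h.lam_surj z

theorem Lag.lai_fst (h : Lag ℓ) (z : Vec n × Vec n) : (Lai ℓ z).1 = z.1 := by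
  have h1 : (Lam ℓ (Lai ℓ z)).1 = z.1 := by rw [h.lam_lai]
  exact h1

theorem Lag.pm_lai (h : Lag ℓ) (z : Vec n × Vec n) : pm ℓ (Lai ℓ z) = z.2 := by
  have h1 : (Lam ℓ (Lai ℓ z)).2 = z.2 := by rw [h.lam_lai]
  exact h1

theorem Lag.lai_der (h : Lag ℓ) (z : Vec n × Vec n) : Function.Surjective (fderiv ℝ (Lai ℓ) z) := by
  intro u
  have h1 : HasFDerivAt (Lai ℓ) (fderiv ℝ (Lai ℓ) z) z :=
    ((h.lai_smooth.differentiable (by simp)) z).hasFDerivAt
  have h2 : HasFDerivAt (Lam ℓ) (fderiv ℝ (Lam ℓ) (Lai ℓ z)) (Lai ℓ z) :=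
    ((h.lam_smooth.differentiable (by simp)) (Lai ℓ z)).hasFDerivAt
  have h1' : HasFDerivAt (Lai ℓ) (fderiv ℝ (Lai ℓ) z) (Lam ℓ (Lai ℓ z)) := by
    rw [h.lam_lai]
    exact h1
  have h3 := h1'.comp (Lai ℓ z) h2
  have h4 : Lai ℓ ∘ Lam ℓ = id := funext fun z => h.lai_lam z
  rw [h4] at h3
  have h5 := congrArg (fun l : Vec n × Vec n →L[ℝ] Vec n × Vec n => l u)
    (h3.unique (hasFDerivAt_id (Lai ℓ z)))
  exact ⟨_, h5⟩

end Pool.Agent.DF
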