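import Pool.Agent.DF.ToVI
import Pool.Agent.DF.BInt
import Pool.Agent.DA.ToC0
import Pool.Agent.DA.OFin
import Pool.Agent.DB.Main

/-!
# MP_74f563_an, n = 2 autonomous (D2), file DF/Main: the theorem

`auto_two`: an autonomous real-analytic Tonelli Lagrangian on `𝕋² × ℝ²` with complete flow and
strictly convex `α` is completely integrable.
-/

set_option autoImplicit false

namespace Pool.Agent.DF

open Set Filter Topology MeasureTheory Pool.Agent.MechAlpha Pool.Agent.DV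
open Pool.Agent.NOne (Tonelli)
open scoped ContDiff RealInnerProductSpace

/-- the projection to the torus -/
noncomputable def prj (z : PP) : Torus 2 × R2 := (proj (iso z.1), z.2)

theorem prj_cont : Continuous prj :=
  (continuous_proj.comp (iso.continuous.comp continuous_fst)).prodMk continuous_snd

theorem prj_eq {z z' : PP} : prj z = prj z' ↔ ∃ m : ℤ × ℤ, z = z' + (DB.zz m, 0) := by
  constructor
  · intro h
    have h1 : proj (iso z.1) = proj (iso z'.1) := congrArg Prod.fst h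
    have h2 : z.2 = z'.2 := congrArg (fun p : Torus 2 × R2 => p.2) h
    obtain ⟨l, hl⟩ := proj_eq h1
    refine ⟨(l 0, l 1), Prod.ext ?_ ?_⟩
    · change z.1 = z'.1 + DB.zz (l 0, l 1)
      apply iso.injective
      rw [map_add, iso_zz', hl]
    · change z.2 = z'.2 + 0
      rw [h2, add_zero]
  · rintro ⟨m, rfl⟩
    refine Prod.ext ?_ ?_
    · change proj (iso (z'.1 + DB.zz m)) = proj (iso z'.1)
      rw [map_add, iso_zz, proj_zv]
    · change z'.2 + 0 = z'.2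
      rw [add_zero]

/-- the lattice generated by a basis of determinant one -/
theorem prj_lat {h h' : ℤ × ℤ} (hd : h.1 * h'.2 - h.2 * h'.1 = 1) (z z' : PP) :
    prj z = prj z' ↔ ∃ i j : ℤ, z = z' + lat ((DB.zz h, 0) : PP) (DB.zz h', 0) i j := by
  have e : ∀ i j : ℤ, lat ((DB.zz h, 0) : PP) (DB.zz h', 0) i j =
      (DB.zz (i * h.1 + j * h'.1, i * h.2 + j * h'.2), 0) := by
    intro i j
    unfold lat
    refine Prod.ext (Prod.ext ?_ ?_) (Prod.ext ?_ ?_)
    · change (i : ℝ) * (h.1 : ℝ) + (j : ℝ) * (h'.1 : ℝ) = ((i * h.1 + j * h'.1 : ℤ) : ℝ)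
      push_cast
      ring
    · change (i : ℝ) * (h.2 : ℝ) + (j : ℝ) * (h'.2 : ℝ) = ((i * h.2 + j * h'.2 : ℤ) : ℝ)
      push_cast
      ring
    · change (i : ℝ) * (0 : ℝ) + (j : ℝ) * (0 : ℝ) = 0
      ring
    · change (i : ℝ) * (0 : ℝ) + (j : ℝ) * (0 : ℝ) = 0
      ring
  rw [prj_eq]
  constructor
  · rintro ⟨m, hm⟩
    refine ⟨m.1 * h'.2 - m.2 * h'.1, h.1 * m.2 - h.2 * m.1, ?_⟩
    rw [e, hm]
    congr 2
    congr 1
    refine Prod.ext ?_ ?_
    · change m.1 = (m.1 * h'.2 - m.2 * h'.1) * h.1 + (h.1 * m.2 - h.2 * m.1) * h'.1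
      linear_combination (-m.1) * hd
    · change m.2 = (m.1 * h'.2 - m.2 * h'.1) * h.2 + (h.1 * m.2 - h.2 * m.1) * h'.2
      linear_combination (-m.2) * hd
  · rintro ⟨i, j, hij⟩
    exact ⟨_, by rw [hij, e]⟩

/-- the good points are dense -/
theorem good_dense {L : PP → ℝ} {Fl : ℝ → PP → PP} {E0 : ℝ} {V : ℝ → ℤ × ℤ → DB.R2 → DB.R2}
    {T m : ℝ → ℤ × ℤ → ℝ} (hC : DB.C0 L Fl E0 V T m)
    (h8 : interior {z : PP | DB.en L z ≤ E0} = ∅) : Dense {z | Good Fl (DB.en L) prj z} := by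
  rw [dense_iff_inter_open]
  intro O hO hne
  -- a point of energy `> E0`
  obtain ⟨z₀, hz₀, he₀⟩ : ∃ z ∈ O, E0 < DB.en L z := by
    by_contra hcon
    push Not at hcon
    have h1 : O ⊆ interior {z : PP | DB.en L z ≤ E0} := interior_maximal hcon hO
    rw [h8] at h1
    obtain ⟨z, hz⟩ := hne
    exact h1 hz
  -- a leaf
  obtain ⟨x₀, v₀⟩ := z₀
  obtain ⟨d, hd, hball⟩ := Metric.isOpen_iff.1 hO _ hz₀
  obtain ⟨h, hh, hv⟩ := hC.dens (DB.en L (x₀, v₀)) he₀ x₀ v₀ rfl d hd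
  have hmem : (x₀, V (DB.en L (x₀, v₀)) h x₀) ∈ O := by
    apply hball
    rw [Metric.mem_ball, Prod.dist_eq, dist_self, dist_eq_norm]
    exact max_lt hd hv
  obtain ⟨h', c2, r, Z, T', hdet, hFlw, hBnd, a, w, hw, hin⟩ := DB.band hC he₀ hh x₀ hO hmem
  obtain ⟨f, f1, f2, f3, f4, f5⟩ := hBnd.exists_fun prj_cont (prj_lat hdet) hFlw hw
  refine ⟨Fl a (Z w), hin, f, f1, f2, f3, fun z z' hzz => ?_, ?_⟩
  · obtain ⟨i, j, hij⟩ := (prj_lat hdet z z').1 hzz
    rw [hij, f4]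
  · have h5 := f5 a 0 0
    rw [lat_zero, add_zero] at h5
    exact h5

variable {L : Torus 2 → Vec 2 → UnitAddCircle → ℝ} {φ : ℝ → Phase 2 → Phase 2}

/-- the energy has no critical point outside the zero section -/
theorem en_ne {ℓ : Vec 2 × Vec 2 → ℝ} (h : Lag ℓ) {z : PP} (hz : z.2 ≠ 0) :
    fderiv ℝ (DB.en (Lr ℓ)) z ≠ 0 := by
  intro h0
  have e : DB.en (Lr ℓ) = fun z => en ℓ (iso2 z) := funext fun z => en_r h z
  have h1 : HasFDerivAt (fun z => en ℓ (iso2 z))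
      ((fderiv ℝ (en ℓ) (iso2 z)).comp (iso2 : PP →L[ℝ] Vec 2 × Vec 2)) z :=
    (((h.en_smooth.differentiable (by simp)) (iso2 z)).hasFDerivAt).comp z iso2.hasFDerivAt
  rw [e, h1.fderiv] at h0
  have h2 := congrArg (fun l : PP →L[ℝ] ℝ => l (0, z.2)) h0
  have h3 : fderiv ℝ (en ℓ) (iso2 z) (iso2 (0, z.2)) = 0 := h2
  have e0 : iso2 (0, z.2) = (0, iso z.2) := by
    rw [iso2_apply (0, z.2), map_zero]
  have e1 : iso2 z = (iso z.1, iso z.2) := iso2_apply z
  rw [e0, e1, h.en_der] at h3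
  change ⟪fderiv ℝ (pm ℓ) (iso z.1, iso z.2) (0, iso z.2), iso z.2⟫ -
    ⟪gx ℓ (iso z.1, iso z.2), (0 : Vec 2)⟫ = 0 at h3
  rw [inner_zero_right, sub_zero, h.pm_dv] at h3
  have hne : iso z.2 ≠ 0 := fun h => hz (iso.map_eq_zero_iff.1 h)
  exact (h.conv (iso z.1) (iso z.2) (iso z.2) hne).ne' h3

theorem en_dense {ℓ : Vec 2 × Vec 2 → ℝ} (h : Lag ℓ) :
    Dense {z : PP | fderiv ℝ (DB.en (Lr ℓ)) z ≠ 0} := by
  have h1 : Dense {z : PP | z.2 ≠ 0} := by
    have h2 : Dense ({0}ᶜ : Set DB.R2) := dense_compl_singleton 0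
    have h3 := (dense_univ (X := DB.R2)).prod h2
    exact h3.mono fun z hz => hz.2
  exact h1.mono fun z hz => en_ne h hz

/-- THEOREM D2 -/
theorem auto_two (hL : Tonelli L) (hA : Auto L) (hφ : IsELFlow L φ)
    (hα : StrictConvexOn ℝ univ (alpha L φ)) : CompletelyIntegrable L φ := by
  obtain ⟨P, hX, hW, hAc, he⟩ := exists_vi hL hA hφ hα
  have hD := dyn_ton hL hA hφ
  have hC := DA.toC0 P hD hX hW hAc he P.ci
  have h8 := DA.toC8 P he P.ci
  have hlag := lag_of hL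
  have hes : ContDiff ℝ ∞ (DB.en (Lr (lft2 L))) := by
    have e : DB.en (Lr (lft2 L)) = fun z => en (lft2 L) (iso2 z) := funext fun z => en_r hlag z
    rw [e]
    exact hlag.en_smooth.comp iso2.contDiff
  obtain ⟨F, hF, hFi, hFp, -, hFd⟩ := glue (pr := prj) hes (en_dense hlag)
    (good_dense hC h8)
  refine ci_two hL hA hφ (F := fun z => F (iso2.symm z)) (hF.comp iso2.symm.contDiff) ?_ ?_ ?_
  · intro x v l
    apply hFp
    rw [prj_eq]
    refine ⟨(l 0, l 1), ?_⟩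
    apply iso2.injective
    rw [map_add, iso2.apply_symm_apply, iso2.apply_symm_apply]
    refine Prod.ext ?_ ?_
    · change x + zv l = x + iso (DB.zz (l 0, l 1))
      rw [iso_zz']
    · change v = v + iso 0
      rw [map_zero, add_zero]
  · intro γ hγ s t
    beta_reduce
    rw [← fr_el hL hA hφ hγ s, ← fr_el hL hA hφ hγ t, hFi, hFi]
  · have h1 : Dense (iso2 '' {z | LinearIndependent ℝ
        ![fderiv ℝ (DB.en (Lr (lft2 L))) z, fderiv ℝ F z]}) :=
      iso2.surjective.denseRange.dense_image iso2.continuous hFd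
    refine h1.mono ?_
    rintro y ⟨z, hz, rfl⟩
    have e : DB.en (Lr (lft2 L)) = fun z => en (lft2 L) (iso2 z) := funext fun z => en_r hlag z
    have d1 : HasFDerivAt (fun z => en (lft2 L) (iso2 z))
        ((fderiv ℝ (en (lft2 L)) (iso2 z)).comp (iso2 : PP →L[ℝ] Vec 2 × Vec 2)) z :=
      (((hlag.en_smooth.differentiable (by simp)) (iso2 z)).hasFDerivAt).comp z iso2.hasFDerivAt
    have d2 : HasFDerivAt (fun y => F (iso2.symm y))
        ((fderiv ℝ F (iso2.symm (iso2 z))).comp (iso2.symm : Vec 2 × Vec 2 →L[ℝ] PP)) (iso2 z) :=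
      (((hF.differentiable (by simp)) _).hasFDerivAt).comp (iso2 z) iso2.symm.hasFDerivAt
    have hz' : LinearIndependent ℝ (![fderiv ℝ (DB.en (Lr (lft2 L))) z, fderiv ℝ F z] :
      Fin 2 → (PP →L[ℝ] ℝ)) := hz
    change LinearIndependent ℝ ![fderiv ℝ (en (lft2 L)) (iso2 z),
      fderiv ℝ (fun y => F (iso2.symm y)) (iso2 z)]
    rw [d2.fderiv, iso2.symm_apply_apply]
    rw [e, d1.fderiv] at hz'
    rw [LinearIndependent.pair_iff] at hz' ⊢
    intro s t hst
    refine hz' s t ?_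
    refine ContinuousLinearMap.ext fun u => ?_
    have h2 := congrArg (fun l : Vec 2 × Vec 2 →L[ℝ] ℝ => l (iso2 u)) hst
    have h3 : s * fderiv ℝ (en (lft2 L)) (iso2 z) (iso2 u) +
      t * fderiv ℝ F z (iso2.symm (iso2 u)) = 0 := h2
    rw [iso2.symm_apply_apply] at h3
    exact h3

end Pool.Agent.DF
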