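import Pool.Agent.DV.V7
import Pool.Agent.DA.Defs

/-!
# MP_74f563_an, n = 2 autonomous (D2), file DF/ToVI: the variational interface `DA.VI`

For a Tonelli autonomous Lagrangian on `𝕋² × ℝ²` with complete flow and strictly convex `α`.
-/

set_option autoImplicit false

namespace Pool.Agent.DF

open Set Filter Topology MeasureTheory Pool.Agent.MechAlpha Pool.Agent.DV Pool.Agent.LRig
open Pool.Agent.NOne (Tonelli)
open scoped ContDiff RealInnerProductSpace

theorem norm_iso_le (x : R2) : ‖iso x‖ ≤ 2 * ‖x‖ := by
  have h1 := norm_le_sum (iso x)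
  rw [Fin.sum_univ_two, iso_zero, iso_one] at h1
  have h2 : |x.1| ≤ ‖x‖ := le_max_left _ _
  have h3 : |x.2| ≤ ‖x‖ := le_max_right _ _
  linarith

theorem norm_le_iso (x : R2) : ‖x‖ ≤ ‖iso x‖ := by
  refine max_le ?_ ?_
  · have h := PiLp.norm_apply_le (iso x) 0
    rw [iso_zero] at h
    exact h
  · have h := PiLp.norm_apply_le (iso x) 1
    rw [iso_one] at h
    exact h

theorem iso_lv (m : ℤ × ℤ) : iso (DA.lv m) = zv (zk m) := iso_zz m

theorem iso_lv' (l : Fin 2 → ℤ) : iso (DA.lv (l 0, l 1)) = zv l := iso_zz' l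

theorem inner_iso (c x : R2) : ⟪iso c, iso x⟫ = DA.dt c x := by
  rw [PiLp.inner_apply, Fin.sum_univ_two, iso_zero, iso_one, iso_zero, iso_one]
  unfold DA.dt
  simp only [RCLike.inner_apply, conj_trivial]
  ring

variable {ℓ : Vec 2 × Vec 2 → ℝ}

theorem ac_r (ℓ : Vec 2 × Vec 2 → ℝ) (t : ℝ) (z : PP) :
    DB.Ac (Lr ℓ) (Fr ℓ) t z = Ax ℓ t (iso2 z) := by
  unfold DB.Ac Ax
  refine intervalIntegral.integral_congr fun s _ => ?_
  change ℓ (iso2 (Fr ℓ s z)) = _
  rw [iso2_fr]

theorem fr_fst (ℓ : Vec 2 × Vec 2 → ℝ) (t : ℝ) (z : PP) : iso (Fr ℓ t z).1 = (fl ℓ t (iso2 z)).1 :=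
  congrArg Prod.fst (iso2_fr ℓ t z)

theorem fr_snd (ℓ : Vec 2 × Vec 2 → ℝ) (t : ℝ) (z : PP) : iso (Fr ℓ t z).2 = (fl ℓ t (iso2 z)).2 :=
  congrArg Prod.snd (iso2_fr ℓ t z)

theorem fr_cont (hT : Ton ℓ) : Continuous fun q : ℝ × PP => Fr ℓ q.1 q.2 :=
  iso2.symm.continuous.comp (hT.cont.comp
    (continuous_fst.prodMk (iso2.continuous.comp continuous_snd)))

variable {L : Torus 2 → Vec 2 → UnitAddCircle → ℝ} {φ : ℝ → Phase 2 → Phase 2}

/-- the variational interface -/
theorem exists_vi (hL : Tonelli L) (hA : Auto L) (hφ : IsELFlow L φ)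
    (hα : StrictConvexOn ℝ univ (alpha L φ)) : ∃ P : DA.VI,
    (∀ t x v, P.X t x v = (Fr (lft2 L) t (x, v)).1) ∧
    (∀ t x v, P.W t x v = (Fr (lft2 L) t (x, v)).2) ∧
    (∀ t x v, P.A t x v = DB.Ac (Lr (lft2 L)) (Fr (lft2 L)) t (x, v)) ∧
    (∀ x v, P.e x v = DB.en (Lr (lft2 L)) (x, v)) := by
  obtain ⟨c₀, hc₀⟩ := alpha_min hL hA hφ hα
  have hT := ton_of hL hA hφ
  have hD := dyn_ton hL hA hφ
  have h0 : Clr (lft2 L) c₀ (alpha L φ c₀) := clr_of_alpha_le hL hA hφ le_rfl
  have hFc := fr_cont hT
  let P : DA.VI :=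
    { X := fun t x v => (Fr (lft2 L) t (x, v)).1
      W := fun t x v => (Fr (lft2 L) t (x, v)).2
      A := fun t x v => DB.Ac (Lr (lft2 L)) (Fr (lft2 L)) t (x, v)
      e := fun x v => DB.en (Lr (lft2 L)) (x, v)
      D := fun E x y => Dx (lft2 L) E (iso x) (iso y)
      al := fun c => alpha L φ (iso c)
      E0 := alpha L φ c₀
      X0 := fun x v => by rw [hD.zero]
      W0 := fun x v => by rw [hD.zero]
      A0 := fun x v => by
        rw [ac_r]
        exact intervalIntegral.integral_same
      Xadd := fun s t x v => by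
        rw [add_comm s t, hD.add]
      Wadd := fun s t x v => by
        rw [add_comm s t, hD.add]
      Aadd := fun s t x v => by
        rw [ac_r, ac_r, ac_r, hT.ax_add]
        congr 2
        exact (iso2_fr (lft2 L) s (x, v)).symm
      Xder := fun t x v => hD.vel t (x, v)
      Xper := fun t x v m => by
        have h := hD.fper t m (x, v)
        have e : ((x, v) : PP) + (DB.zz m, 0) = (x + DA.lv m, v) := by
          rw [Prod.mk_add_mk, add_zero]
          rfl
        rw [e] at h
        rw [h]
        rfl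
      Wper := fun t x v m => by
        have h := hD.fper t m (x, v)
        have e : ((x, v) : PP) + (DB.zz m, 0) = (x + DA.lv m, v) := by
          rw [Prod.mk_add_mk, add_zero]
          rfl
        rw [e] at h
        rw [h]
        exact add_zero _
      Aper := fun t x v m => by
        rw [ac_r, ac_r, iso2_apply, iso2_apply]
        change Ax (lft2 L) t (iso (x + DA.lv m), iso v) = _
        rw [map_add, iso_lv]
        exact hT.ax_shift t (iso x, iso v) (zk m)
      Xcont := continuous_fst.comp hFc
      Wcont := continuous_snd.comp hFc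
      Acont := by
        have h1 : Continuous fun p : ℝ × PP => Ax (lft2 L) p.1 (iso2 p.2) :=
          hT.ax_cont.comp (continuous_fst.prodMk (iso2.continuous.comp continuous_snd))
        exact h1.congr fun p => (ac_r (lft2 L) p.1 p.2).symm
      econs := fun t x v => by
        rw [Prod.mk.eta, en_r hT.lag, en_r hT.lag, iso2_fr, hT.en_fl]
      eper := fun x v m => by
        rw [en_r hT.lag, en_r hT.lag, iso2_apply, iso2_apply]
        change en (lft2 L) (iso (x + DA.lv m), iso v) = _
        rw [map_add, iso_lv]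
        exact hT.per.en _ _ _
      econt := by
        have h1 : Continuous fun p : PP => en (lft2 L) (iso2 p) :=
          hT.lag.en_smooth.continuous.comp iso2.continuous
        exact h1.congr fun p => (en_r hT.lag p).symm
      eray := fun x v hv => by
        have hv' : iso v ≠ 0 := fun h => hv (iso.map_eq_zero_iff.1 h)
        have h1 := en_mono hT.lag (iso x) hv'
        intro s hs t ht hst
        have h2 := h1 hs ht hst
        have e : ∀ s : ℝ, DB.en (Lr (lft2 L)) (x, s • v) = en (lft2 L) (iso x, s • iso v) := by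
          intro s
          rw [en_r hT.lag, iso2_apply]
          change en (lft2 L) (iso x, iso (s • v)) = _
          rw [map_smul]
        beta_reduce
        rw [e, e]
        exact h2
      ebd := fun R => by
        obtain ⟨Ω, hΩ, h1⟩ := en_bdd hT.lag hT.per R
        refine ⟨Ω, fun x v h => (norm_le_iso v).trans (h1 (iso x) (iso v) ?_)⟩
        rw [en_r hT.lag] at h
        exact h
      e0 := fun x => by
        rw [en_r hT.lag, iso2_apply]
        change en (lft2 L) (iso x, iso 0) ≤ _
        rw [map_zero]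
        exact rest_le hT h0 _
      Dself := fun E hE x => dx_self hT h0 hE.le _
      Dtri := fun E hE x y z => dx_tri hT h0 hE.le _ _ _
      Dper := fun E hE x y m => by
        rw [map_add, map_add, iso_lv]
        exact dx_shift hT E _ _ _
      Dcont := by
        have h1 := dx_cont hT h0
        have h2 : Continuous fun p : ℝ × R2 × R2 => ((p.1, iso p.2.1, iso p.2.2) : ℝ × Vec 2 × Vec 2) :=
          continuous_fst.prodMk ((iso.continuous.comp (continuous_fst.comp continuous_snd)).prodMk
            (iso.continuous.comp (continuous_snd.comp continuous_snd)))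
        exact h1.comp h2.continuousOn fun p hp => ⟨hp, mem_univ _⟩
      Dact := fun E hE t x v ht => by
        rw [fr_fst, ac_r]
        rcases ht.eq_or_lt with rfl | ht'
        · rw [hT.zero, iso2_apply]
          change Dx (lft2 L) E (iso x) (iso x) ≤ Ax (lft2 L) 0 _ + E * 0
          rw [dx_self hT h0 hE.le, mul_zero, add_zero]
          exact (intervalIntegral.integral_same).ge
        · exact dx_le hT h0 hE.le (hT.rch E ht' (iso2 (x, v)))
      Dex := fun E hE x y hxy => by
        have hne : iso x ≠ iso y := fun h => hxy (iso.injective h)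
        obtain ⟨v, T, h1, h2, h3, h4⟩ := arc_ex hT h0 hE hne
        have e : iso2 (x, iso.symm v) = (iso x, v) := by
          rw [iso2_apply]
          change (iso x, iso (iso.symm v)) = _
          rw [iso.apply_symm_apply]
        refine ⟨iso.symm v, T, h1, ?_, ?_, ?_⟩
        · rw [en_r hT.lag, e]
          exact h2
        · apply iso.injective
          rw [fr_fst, e]
          exact h3
        · rw [ac_r, e]
          exact h4
      Dtime := fun E1 E2 hE => by
        obtain ⟨C, hC, h1⟩ := dur_bdd hT h0 (E₁ := E1) (E₂ := E2) hE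
        refine ⟨C * 2, fun E x y v t h2 h3 ht _ hX hAx => ?_⟩
        have h4 := h1 E ⟨h2, h3⟩ _ _ t ht (hT.vcv (iso2 (x, v)) ht.le)
        rw [← Ax_eq, hT.zero, ← fr_fst, ← ac_r] at h4
        have hX' : (Fr (lft2 L) t (x, v)).1 = y := hX
        have hA' : DB.Ac (Lr (lft2 L)) (Fr (lft2 L)) t (x, v) + E * t =
          Dx (lft2 L) E (iso x) (iso y) := hAx
        rw [hX', hA'] at h4
        have h5 := h4 (by
          change _ ≤ Dx (lft2 L) E (iso x) (iso y) + 1
          linarith)
        have h6 : ‖iso y - iso x‖ ≤ 2 * ‖y - x‖ := by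
          rw [← map_sub]
          exact norm_iso_le _
        have h7 : ‖iso y - (iso2 (x, v)).1‖ = ‖iso y - iso x‖ := rfl
        rw [h7] at h5
        calc t ≤ C * (1 + ‖iso y - iso x‖) := h5
          _ ≤ C * (2 * (1 + ‖y - x‖)) := mul_le_mul_of_nonneg_left (by linarith) hC
          _ = C * 2 * (1 + ‖y - x‖) := by ring
      corner := fun τ R hτ => by
        obtain ⟨κ, hκ, h1⟩ := corner_dx hT h0 hτ R
        refine ⟨κ, hκ, fun s t x v w E hs ht hv hw hE => ?_⟩
        have e : iso2 ((Fr (lft2 L) t (x, v)).1, w) = ((fl (lft2 L) t (iso2 (x, v))).1, iso w) := by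
          rw [iso2_apply]
          change (iso (Fr (lft2 L) t (x, v)).1, iso w) = _
          rw [fr_fst]
        have h2 := h1 s t (iso x) (iso v) (iso w) E hs ht (by
          rw [en_r hT.lag] at hv
          exact hv) (by
          rw [en_r hT.lag, e] at hw
          exact hw) hE.le
        rw [fr_fst, ac_r, ac_r, e]
        refine h2.trans ?_
        have h3 : ‖(Fr (lft2 L) t (x, v)).2 - w‖ ≤ ‖(fl (lft2 L) t (iso x, iso v)).2 - iso w‖ := by
          have h4 := norm_le_iso ((Fr (lft2 L) t (x, v)).2 - w)
          rw [map_sub, fr_snd] at h4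
          exact h4
        have h4 := mul_le_mul_of_nonneg_left (pow_le_pow_left₀ (norm_nonneg _) h3 2) hκ.le
        change _ ≤ Ax (lft2 L) t (iso x, iso v) + Ax (lft2 L) s
          ((fl (lft2 L) t (iso x, iso v)).1, iso w) + E * (t + s) -
          κ * ‖(Fr (lft2 L) t (x, v)).2 - w‖ ^ 2
        linarith
      bridge := fun E hE c => by
        constructor
        · intro h x m
          have h1 := clr_of_alpha_le hL hA hφ h
          rw [← inner_iso, iso_lv, map_add, iso_lv]
          exact le_dx hT fun r hr => h1 _ _ r hr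
        · intro h
          refine alpha_le_of_clr hL hA hφ fun x m r hr => ?_
          have h1 := h (iso.symm x) (m 0, m 1)
          rw [← inner_iso, iso_lv', map_add, iso_lv', iso.apply_symm_apply] at h1
          exact h1.trans (dx_le hT h0 hE.le hr)
      alsc := by
        refine ⟨convex_univ, fun x _ y _ hxy a b ha hb hab => ?_⟩
        have h1 := hα.2 (mem_univ (iso x)) (mem_univ (iso y)) (fun h => hxy (iso.injective h))
          ha hb hab
        beta_reduce
        rw [map_add, map_smul, map_smul]
        exact h1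
      almin := ⟨iso.symm c₀, by rw [iso.apply_symm_apply]⟩
      alge := fun c => hc₀ (iso c) }
  exact ⟨P, fun _ _ _ => rfl, fun _ _ _ => rfl, fun _ _ _ => rfl, fun _ _ => rfl⟩

end Pool.Agent.DF
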